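import Mathlib

/-!
# The finite combinatorics behind the vanishing of a symbol on a curve

`K` is a finite field, `V` a finite vector space, `m : V × V → V2` a symmetric bilinear map. A
solution is a map `w` from the six vertices `(i, false)`, `(i, true)` of the octahedron to `V`
with `∑ m (w (i, false)) (w (i, true)) = 0`. A function `φ` on the good pairs, skew symmetric,
whose sum over the twelve edges of every solution with good edges vanishes, is of the form
`u a - u b`, if `K` is large.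
-/

set_option autoImplicit false

open Finset

namespace Pool.Agent.K3.Harder

/-! ### The octahedron and its root elements -/

/-- The vertices of the octahedron. -/
abbrev Vtx := Fin 3 × Bool

/-- The opposite vertex. -/
def opp (s : Vtx) : Vtx := (s.1, !s.2)

@[simp] theorem opp_fst (s : Vtx) : (opp s).1 = s.1 := rfl

theorem opp_opp (s : Vtx) : opp (opp s) = s := by
  rcases s with ⟨i, b⟩
  cases b <;> rfl

theorem opp_ne (s : Vtx) : opp s ≠ s := by
  rcases s with ⟨i, b⟩
  cases b <;> simp [opp]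

theorem ne_of_fst {s t : Vtx} (h : s.1 ≠ t.1) : s ≠ t := fun e => h (congrArg Prod.fst e)

theorem eq_or_opp {s t : Vtx} (h : s.1 = t.1) : s = t ∨ s = opp t := by
  rcases s with ⟨i, b⟩
  rcases t with ⟨j, c⟩
  obtain rfl : i = j := h
  cases b <;> cases c <;> simp [opp]

theorem exists_third {s t : Vtx} (h1 : s.1 ≠ t.1) : ∃ r : Vtx, t.1 ≠ r.1 ∧ s.1 ≠ r.1 := by
  obtain ⟨i, hi⟩ : ∃ i : Fin 3, t.1 ≠ i ∧ s.1 ≠ i := by
    generalize s.1 = a at h1 ⊢
    generalize t.1 = b at h1 ⊢
    revert a b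
    decide
  exact ⟨(i, false), hi⟩

section Root

variable {K V V2 : Type*} [Field K] [AddCommGroup V] [Module K V] [AddCommGroup V2] [Module K V2]

/-- The root element: `w s` is replaced by `w s + c • w t`, and `w (opp t)` by
`w (opp t) - c • w (opp s)`. -/
def root (s t : Vtx) (c : K) (w : Vtx → V) : Vtx → V := fun r =>
  if r = s then w s + c • w t else if r = opp t then w (opp t) - c • w (opp s) else w r

theorem root_self (s t : Vtx) (c : K) (w : Vtx → V) : root s t c w s = w s + c • w t := by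
  simp [root]

theorem root_opp {s t : Vtx} (h : s.1 ≠ t.1) (c : K) (w : Vtx → V) :
    root s t c w (opp t) = w (opp t) - c • w (opp s) := by
  have h1 : opp t ≠ s := by
    rintro rfl
    exact h rfl
  simp [root, h1]

theorem root_of_ne (s t : Vtx) (c : K) (w : Vtx → V) {r : Vtx} (h1 : r ≠ s) (h2 : r ≠ opp t) :
    root s t c w r = w r := by
  simp [root, h1, h2]

theorem root_zero (s t : Vtx) (w : Vtx → V) : root s t (0 : K) w = w := by
  funext r
  by_cases h1 : r = s
  · subst h1; simp [root]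
  · by_cases h2 : r = opp t
    · subst h2; simp [root, h1]
    · exact root_of_ne s t _ w h1 h2

theorem root_root {s t : Vtx} (h : s.1 ≠ t.1) (c d : K) (w : Vtx → V) :
    root s t c (root s t d w) = root s t (c + d) w := by
  have hts : t ≠ s := by rintro rfl; exact h rfl
  have ht : t ≠ opp t := (opp_ne t).symm
  have hs : opp s ≠ s := opp_ne s
  have hst : opp s ≠ opp t := by
    intro h'
    have := congrArg Prod.fst h'
    exact h this
  funext r
  by_cases h1 : r = s
  · subst h1
    rw [root_self, root_self, root_self, root_of_ne _ _ _ _ hts ht, add_smul]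
    abel
  · by_cases h2 : r = opp t
    · subst h2
      rw [root_opp h, root_opp h, root_opp h, root_of_ne _ _ _ _ hs hst, add_smul]
      abel
    · rw [root_of_ne _ _ _ _ h1 h2, root_of_ne _ _ _ _ h1 h2, root_of_ne _ _ _ _ h1 h2]

/-- The root element as a bijection. -/
def rootEquiv {s t : Vtx} (h : s.1 ≠ t.1) (c : K) : (Vtx → V) ≃ (Vtx → V) where
  toFun := root s t c
  invFun := root s t (-c)
  left_inv w := by rw [root_root h, neg_add_cancel, root_zero]
  right_inv w := by rw [root_root h, add_neg_cancel, root_zero]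

/-- The value of the quadratic relation. -/
def rel (m : V →ₗ[K] V →ₗ[K] V2) (w : Vtx → V) : V2 :=
  ∑ i : Fin 3, m (w (i, false)) (w (i, true))

variable (m : V →ₗ[K] V →ₗ[K] V2) (hm : ∀ a b, m a b = m b a)
include hm

theorem term_eq (w : Vtx → V) (s : Vtx) :
    m (w (s.1, false)) (w (s.1, true)) = m (w s) (w (opp s)) := by
  rcases s with ⟨i, b⟩
  cases b
  · rfl
  · exact hm _ _

theorem rel_eq (w : Vtx → V) {s t r : Vtx} (h1 : s.1 ≠ t.1) (h2 : t.1 ≠ r.1) (h3 : s.1 ≠ r.1) :
    rel m w = m (w s) (w (opp s)) + m (w t) (w (opp t)) + m (w r) (w (opp r)) := by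
  have hu : (univ : Finset (Fin 3)) = {s.1, t.1, r.1} := by
    symm
    rw [← card_eq_iff_eq_univ, card_eq_three.2 ⟨_, _, _, h1, h3, h2, rfl⟩]
    rfl
  unfold rel
  rw [hu, sum_insert (by simp [h1, h3]), sum_insert (by simp [h2]), sum_singleton,
    term_eq m hm, term_eq m hm, term_eq m hm, add_assoc]

theorem rel_root (w : Vtx → V) {s t : Vtx} (h : s.1 ≠ t.1) (c : K) :
    rel m (root s t c w) = rel m w := by
  obtain ⟨r, h2, h3⟩ := exists_third h
  have hos : opp s ≠ s := opp_ne s
  have host : opp s ≠ opp t := ne_of_fst h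
  have hts : t ≠ s := ne_of_fst h.symm
  have htt : t ≠ opp t := (opp_ne t).symm
  rw [rel_eq m hm _ h h2 h3, rel_eq m hm w h h2 h3, root_self, root_of_ne _ _ _ _ hos host,
    root_of_ne _ _ _ _ hts htt, root_opp h,
    root_of_ne _ _ _ _ (ne_of_fst (by simpa using h3.symm)) (ne_of_fst (by simpa using h2.symm)),
    root_of_ne _ _ _ _ (ne_of_fst (by simpa using h3.symm)) (ne_of_fst (by simpa using h2.symm))]
  simp only [map_add, map_sub, map_smul, LinearMap.add_apply, LinearMap.smul_apply]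
  abel

end Root

/-! ### Counting solutions -/

theorem sum_fib {Ω T : Type*} [Fintype T] [DecidableEq T] (Y : Finset Ω) (π : Ω → T)
    (f : T → ℝ) :
    ∑ w ∈ Y, f (π w) = ∑ t, (#{w ∈ Y | π w = t} : ℝ) * f t := by
  rw [← Finset.sum_fiberwise Y π]
  refine sum_congr rfl fun t _ => ?_
  rw [sum_congr rfl (g := fun _ => f t) (fun w hw => by rw [(mem_filter.1 hw).2]), sum_const,
    nsmul_eq_mul]

theorem sum_prod3 {V : Type*} [Fintype V] (f : V → V → V → ℝ) :
    ∑ p : V × V × V, f p.1 p.2.1 p.2.2 = ∑ a, ∑ b, ∑ c, f a b c := by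
  rw [Fintype.sum_prod_type]
  exact sum_congr rfl fun a _ => by rw [Fintype.sum_prod_type]


section Count

variable {K V V2 : Type*} [Field K] [AddCommGroup V] [Module K V] [AddCommGroup V2] [Module K V2]
  [Fintype V]

open Classical in
/-- The number of completions of a face. -/
noncomputable def sN (m : V →ₗ[K] V →ₗ[K] V2) (a b c : V) : ℕ :=
  #{p : V × V × V | m a p.1 + m b p.2.1 + m c p.2.2 = 0}

theorem sN_eq_natCard (m : V →ₗ[K] V →ₗ[K] V2) (a b c : V) :
    sN m a b c = Nat.card {p : V × V × V // m a p.1 + m b p.2.1 + m c p.2.2 = 0} := by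
  classical
  rw [Nat.card_eq_fintype_card, Fintype.card_subtype]
  unfold sN
  congr!

open Classical in
/-- The set of all solutions. -/
noncomputable def Sol (m : V →ₗ[K] V →ₗ[K] V2) : Finset (Vtx → V) := {w | rel m w = 0}

theorem mem_Sol (m : V →ₗ[K] V →ₗ[K] V2) (w : Vtx → V) : w ∈ Sol m ↔ rel m w = 0 := by
  classical
  simp [Sol]

variable (m : V →ₗ[K] V →ₗ[K] V2) (hm : ∀ a b, m a b = m b a)
include hm

theorem root_mem {w : Vtx → V} (hw : w ∈ Sol m) {s t : Vtx} (h : s.1 ≠ t.1) (c : K) :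
    root s t c w ∈ Sol m := by
  rw [mem_Sol, rel_root m hm w h]
  exact (mem_Sol m w).1 hw

theorem root_mem_iff {w : Vtx → V} {s t : Vtx} (h : s.1 ≠ t.1) (c : K) :
    root s t c w ∈ Sol m ↔ w ∈ Sol m := by
  rw [mem_Sol, mem_Sol, rel_root m hm w h]

open Classical in
theorem face_card {s t r : Vtx} (h1 : s.1 ≠ t.1) (h2 : t.1 ≠ r.1) (h3 : s.1 ≠ r.1) (a b c : V) :
    #{w ∈ Sol m | w s = a ∧ w t = b ∧ w r = c} = sN m a b c := by
  have hst : s ≠ t := ne_of_fst h1
  have htr : t ≠ r := ne_of_fst h2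
  have hsr : s ≠ r := ne_of_fst h3
  have e1 : opp s ≠ s := opp_ne s
  have e2 : opp s ≠ t := ne_of_fst h1
  have e3 : opp s ≠ r := ne_of_fst h3
  have f1 : opp t ≠ s := ne_of_fst h1.symm
  have f2 : opp t ≠ t := opp_ne t
  have f3 : opp t ≠ r := ne_of_fst h2
  have f4 : opp t ≠ opp s := ne_of_fst h1.symm
  have g1 : opp r ≠ s := ne_of_fst h3.symm
  have g2 : opp r ≠ t := ne_of_fst h2.symm
  have g3 : opp r ≠ r := opp_ne r
  have g4 : opp r ≠ opp s := ne_of_fst h3.symm
  have g5 : opp r ≠ opp t := ne_of_fst h2.symm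
  have hcov : ∀ v : Vtx, v = s ∨ v = t ∨ v = r ∨ v = opp s ∨ v = opp t ∨ v = opp r := by
    intro v
    have hu : (univ : Finset (Fin 3)) = {s.1, t.1, r.1} := by
      symm
      rw [← card_eq_iff_eq_univ, card_eq_three.2 ⟨_, _, _, h1, h3, h2, rfl⟩]
      rfl
    have hv : v.1 ∈ ({s.1, t.1, r.1} : Finset (Fin 3)) := hu ▸ mem_univ _
    simp only [mem_insert, mem_singleton] at hv
    rcases hv with hv | hv | hv
    · rcases eq_or_opp hv with h | h
      · exact Or.inl h
      · exact Or.inr (Or.inr (Or.inr (Or.inl h)))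
    · rcases eq_or_opp hv with h | h
      · exact Or.inr (Or.inl h)
      · exact Or.inr (Or.inr (Or.inr (Or.inr (Or.inl h))))
    · rcases eq_or_opp hv with h | h
      · exact Or.inr (Or.inr (Or.inl h))
      · exact Or.inr (Or.inr (Or.inr (Or.inr (Or.inr h))))
  let mk : V × V × V → (Vtx → V) := fun p v =>
    if v = s then a else if v = t then b else if v = r then c else
      if v = opp s then p.1 else if v = opp t then p.2.1 else p.2.2
  have mks : ∀ p, mk p s = a := fun p => by simp [mk]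
  have mkt : ∀ p, mk p t = b := fun p => by simp [mk, hst.symm]
  have mkr : ∀ p, mk p r = c := fun p => by simp [mk, hsr.symm, htr.symm]
  have mks' : ∀ p, mk p (opp s) = p.1 := fun p => by simp [mk, e1, e2, e3]
  have mkt' : ∀ p, mk p (opp t) = p.2.1 := fun p => by simp [mk, f1, f2, f3, f4]
  have mkr' : ∀ p, mk p (opp r) = p.2.2 := fun p => by simp [mk, g1, g2, g3, g4, g5]
  unfold sN
  refine card_bij' (fun w _ => (w (opp s), w (opp t), w (opp r))) (fun p _ => mk p) ?_ ?_ ?_ ?_
  · intro w hw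
    rw [mem_filter, mem_Sol, rel_eq m hm w h1 h2 h3] at hw
    obtain ⟨hw, ha, hb, hc⟩ := hw
    rw [ha, hb, hc] at hw
    simpa using hw
  · intro p hp
    rw [mem_filter] at hp
    rw [mem_filter, mem_Sol, rel_eq m hm _ h1 h2 h3, mks, mkt, mkr, mks', mkt', mkr']
    exact ⟨hp.2, rfl, rfl, rfl⟩
  · intro w hw
    rw [mem_filter] at hw
    obtain ⟨-, ha, hb, hc⟩ := hw
    funext v
    rcases hcov v with rfl | rfl | rfl | rfl | rfl | rfl
    · rw [mks, ha]
    · rw [mkt, hb]
    · rw [mkr, hc]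
    · rw [mks']
    · rw [mkt']
    · rw [mkr']
  · intro p _
    rw [mks', mkt', mkr']

omit hm in
theorem sN_shift (a b c : V) (l : K) : sN m a (b + l • c) c = sN m a b c := by
  classical
  unfold sN
  refine card_bij' (fun p _ => (p.1, p.2.1, p.2.2 + l • p.2.1))
    (fun p _ => (p.1, p.2.1, p.2.2 - l • p.2.1)) ?_ ?_ ?_ ?_
  · intro p hp
    simp only [mem_filter, mem_univ, true_and] at hp ⊢
    rw [← hp]
    simp only [map_add, map_smul, LinearMap.add_apply, LinearMap.smul_apply]
    abel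
  · intro p hp
    simp only [mem_filter, mem_univ, true_and] at hp ⊢
    rw [← hp]
    simp only [map_add, map_sub, map_smul, LinearMap.add_apply, LinearMap.smul_apply]
    abel
  · intro p _
    simp
  · intro p _
    simp

/-- Sums over solutions of functions of a face. -/
theorem sum_face {s t r : Vtx} (h1 : s.1 ≠ t.1) (h2 : t.1 ≠ r.1) (h3 : s.1 ≠ r.1)
    (f : V → V → V → ℝ) :
    ∑ w ∈ Sol m, f (w s) (w t) (w r) = ∑ a, ∑ b, ∑ c, (sN m a b c : ℝ) * f a b c := by
  classical
  rw [sum_fib (Sol m) (fun w => (w s, w t, w r)) (fun p => f p.1 p.2.1 p.2.2),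
    ← sum_prod3 (fun a b c => (sN m a b c : ℝ) * f a b c)]
  refine sum_congr rfl fun p _ => ?_
  congr 1
  rw [← face_card m hm h1 h2 h3]
  norm_cast
  congr 1
  ext w
  simp [Prod.ext_iff]

/-- Sums over solutions of functions of an edge. -/
theorem sum_edge {s t : Vtx} (h1 : s.1 ≠ t.1) (f : V → V → ℝ) :
    ∑ w ∈ Sol m, f (w s) (w t) = ∑ a, ∑ b, (∑ c, (sN m a b c : ℝ)) * f a b := by
  obtain ⟨r, h2, h3⟩ := exists_third h1
  rw [sum_face m hm h1 h2 h3 (fun a b _ => f a b)]
  refine sum_congr rfl fun a _ => sum_congr rfl fun b _ => ?_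
  rw [sum_mul]

end Count

/-- The square of the norm of `F`. -/
noncomputable def nrm {V : Type*} [Fintype V] (F : V → V → ℝ) : ℝ := ∑ x, ∑ y, F x y ^ 2

theorem nrm_nonneg {V : Type*} [Fintype V] (F : V → V → ℝ) : 0 ≤ nrm F :=
  sum_nonneg fun _ _ => sum_nonneg fun _ _ => sq_nonneg _

section Est

variable {K V V2 : Type*} [Field K] [Fintype K] [AddCommGroup V] [Module K V] [Fintype V]
  [AddCommGroup V2] [Module K V2] (m : V →ₗ[K] V →ₗ[K] V2) (hm : ∀ a b, m a b = m b a)
  (F : V → V → ℝ) (s0 : ℕ)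

include hm

theorem edge_ge (hs0 : ∀ a b c, s0 ≤ sN m a b c) {s t : Vtx} (h1 : s.1 ≠ t.1) :
    (s0 : ℝ) * Fintype.card V * nrm F ≤ ∑ w ∈ Sol m, F (w s) (w t) ^ 2 := by
  rw [sum_edge m hm h1 (fun a b => F a b ^ 2)]
  unfold nrm
  rw [mul_sum]
  refine sum_le_sum fun a _ => ?_
  rw [mul_sum]
  refine sum_le_sum fun b _ => mul_le_mul_of_nonneg_right ?_ (sq_nonneg _)
  have h : ∑ _c : V, (s0 : ℝ) ≤ ∑ c, (sN m a b c : ℝ) :=
    sum_le_sum fun c _ => by exact_mod_cast hs0 a b c
  rw [sum_const, card_univ, nsmul_eq_mul] at h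
  linarith

theorem edge_le (hcount : ∀ a b, F a b ≠ 0 →
      Fintype.card K * ∑ c, sN m a b c ≤ (Fintype.card K + 1) * s0 * Fintype.card V)
    {s t : Vtx} (h1 : s.1 ≠ t.1) :
    Fintype.card K * ∑ w ∈ Sol m, F (w s) (w t) ^ 2 ≤
      (Fintype.card K + 1) * ((s0 : ℝ) * Fintype.card V * nrm F) := by
  rw [sum_edge m hm h1 (fun a b => F a b ^ 2)]
  unfold nrm
  simp only [mul_sum]
  refine sum_le_sum fun a _ => ?_
  refine sum_le_sum fun b _ => ?_
  by_cases h : F a b = 0
  · simp [h]
  · have h2 : (Fintype.card K : ℝ) * ∑ c, (sN m a b c : ℝ) ≤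
        (Fintype.card K + 1) * s0 * Fintype.card V := by exact_mod_cast hcount a b h
    calc (Fintype.card K : ℝ) * ((∑ c, (sN m a b c : ℝ)) * F a b ^ 2)
        = ((Fintype.card K : ℝ) * ∑ c, (sN m a b c : ℝ)) * F a b ^ 2 := by ring
      _ ≤ ((Fintype.card K + 1) * s0 * Fintype.card V) * F a b ^ 2 :=
          mul_le_mul_of_nonneg_right h2 (sq_nonneg _)
      _ = _ := by ring

omit hm in
/-- The average over a root group, without weights. -/
theorem avg_sq (hrow : ∀ a, ∑ b, F a b = 0) :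
    ∑ a, ∑ b, ∑ c, (∑ l : K, F a (b + l • c)) ^ 2 =
      Fintype.card K * (Fintype.card V * nrm F) := by
  classical
  have key : ∀ a : V, ∀ l k : K, ∑ b, ∑ c, F a (b + l • c) * F a (b + k • c) =
      if l = k then Fintype.card V * ∑ b, F a b ^ 2 else 0 := by
    intro a l k
    have h : ∀ c : V, ∑ b, F a (b + l • c) * F a (b + k • c) =
        ∑ b, F a b * F a (b + (k - l) • c) := by
      intro c
      refine Fintype.sum_bijective (fun b => b + l • c) (Equiv.addRight (l • c)).bijective _ _ ?_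
      intro b
      rw [sub_smul]
      congr 2
      abel
    rw [sum_comm]
    simp_rw [h]
    split_ifs with hlk
    · subst hlk
      simp only [sub_self, zero_smul, add_zero, sum_const, card_univ, nsmul_eq_mul]
      congr 1
      exact sum_congr rfl fun b _ => by ring
    · rw [sum_comm]
      refine sum_eq_zero fun b _ => ?_
      rw [← mul_sum]
      have hk : k - l ≠ 0 := sub_ne_zero.2 (Ne.symm hlk)
      have h3 : ∑ c, F a (b + (k - l) • c) = ∑ c, F a c := by
        refine Fintype.sum_bijective (fun c => b + (k - l) • c) ?_ _ _ (fun c => rfl)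
        refine ⟨fun c d h => ?_, fun c => ⟨(k - l)⁻¹ • (c - b), ?_⟩⟩
        · exact smul_right_injective V hk (add_left_cancel h)
        · simp only
          rw [smul_inv_smul₀ hk]
          abel
      rw [h3, hrow, mul_zero]
  calc ∑ a, ∑ b, ∑ c, (∑ l : K, F a (b + l • c)) ^ 2
      = ∑ a, ∑ l : K, ∑ k : K, ∑ b, ∑ c, F a (b + l • c) * F a (b + k • c) := by
        refine sum_congr rfl fun a _ => ?_
        have e1 : ∀ b, ∑ c, (∑ l : K, F a (b + l • c)) ^ 2 =
            ∑ l : K, ∑ k : K, ∑ c, F a (b + l • c) * F a (b + k • c) := by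
          intro b
          have e0 : ∀ c, (∑ l : K, F a (b + l • c)) ^ 2 =
              ∑ l : K, ∑ k : K, F a (b + l • c) * F a (b + k • c) := fun c => by
            rw [sq, sum_mul_sum]
          rw [sum_congr rfl (fun c _ => e0 c), sum_comm]
          refine sum_congr rfl fun l _ => ?_
          rw [sum_comm]
        rw [sum_congr rfl (fun b _ => e1 b), sum_comm]
        refine sum_congr rfl fun l _ => ?_
        rw [sum_comm]
    _ = ∑ a, ∑ l : K, ∑ k : K, (if l = k then Fintype.card V * ∑ b, F a b ^ 2 else 0) :=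
        sum_congr rfl fun a _ => sum_congr rfl fun l _ => sum_congr rfl fun k _ => key a l k
    _ = _ := by
        simp only [sum_ite_eq, mem_univ, if_true, sum_const, card_univ, nsmul_eq_mul]
        unfold nrm
        rw [← mul_sum, ← mul_sum]

omit hm in
/-- The average over a root group, with weights. -/
theorem avg_sq_weight (hrow : ∀ a, ∑ b, F a b = 0) (hs0 : ∀ a b c, s0 ≤ sN m a b c)
    (hcount : ∀ a b, F a b ≠ 0 →
      Fintype.card K * ∑ c, sN m a b c ≤ (Fintype.card K + 1) * s0 * Fintype.card V) :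
    ∑ a, ∑ b, ∑ c, (sN m a b c : ℝ) * (∑ l : K, F a (b + l • c)) ^ 2 ≤
      2 * Fintype.card K * ((s0 : ℝ) * Fintype.card V * nrm F) := by
  classical
  have hsplit : ∑ a, ∑ b, ∑ c, (sN m a b c : ℝ) * (∑ l : K, F a (b + l • c)) ^ 2 =
      (s0 : ℝ) * ∑ a, ∑ b, ∑ c, (∑ l : K, F a (b + l • c)) ^ 2 +
      ∑ a, ∑ b, ∑ c, ((sN m a b c : ℝ) - s0) * (∑ l : K, F a (b + l • c)) ^ 2 := by
    simp only [mul_sum, ← sum_add_distrib]
    refine sum_congr rfl fun a _ => sum_congr rfl fun b _ => sum_congr rfl fun c _ => ?_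
    ring
  have h2 : ∑ a, ∑ b, ∑ c, ((sN m a b c : ℝ) - s0) * (∑ l : K, F a (b + l • c)) ^ 2 ≤
      Fintype.card K * ((s0 : ℝ) * Fintype.card V * nrm F) := by
    have e1 : ∑ a, ∑ b, ∑ c, ((sN m a b c : ℝ) - s0) * (∑ l : K, F a (b + l • c)) ^ 2 ≤
        ∑ a, ∑ b, ∑ c, ((sN m a b c : ℝ) - s0) *
          (Fintype.card K * ∑ l : K, F a (b + l • c) ^ 2) := by
      refine sum_le_sum fun a _ => sum_le_sum fun b _ => sum_le_sum fun c _ => ?_
      refine mul_le_mul_of_nonneg_left ?_ (sub_nonneg.2 (by exact_mod_cast hs0 a b c))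
      have := sq_sum_le_card_mul_sum_sq (s := (univ : Finset K)) (f := fun l => F a (b + l • c))
      rw [card_univ] at this
      exact this
    refine le_trans e1 ?_
    have e2 : ∀ a, ∑ b, ∑ c, ((sN m a b c : ℝ) - s0) *
          (Fintype.card K * ∑ l : K, F a (b + l • c) ^ 2) =
        Fintype.card K * ∑ l : K, ∑ b, ∑ c, ((sN m a b c : ℝ) - s0) * F a b ^ 2 := by
      intro a
      have e3 : ∀ l : K, ∑ b, ∑ c, ((sN m a b c : ℝ) - s0) * F a b ^ 2 =
          ∑ b, ∑ c, ((sN m a b c : ℝ) - s0) * F a (b + l • c) ^ 2 := by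
        intro l
        rw [sum_comm (s := (univ : Finset V)) (t := (univ : Finset V))
            (f := fun b c => ((sN m a b c : ℝ) - s0) * F a b ^ 2),
          sum_comm (s := (univ : Finset V)) (t := (univ : Finset V))
            (f := fun b c => ((sN m a b c : ℝ) - s0) * F a (b + l • c) ^ 2)]
        refine sum_congr rfl fun c _ => ?_
        symm
        refine Fintype.sum_bijective (fun b => b + l • c)
          (Equiv.addRight (l • c)).bijective _ _ ?_
        intro b
        rw [sN_shift]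
      calc ∑ b, ∑ c, ((sN m a b c : ℝ) - s0) * (Fintype.card K * ∑ l : K, F a (b + l • c) ^ 2)
          = ∑ b, ∑ c, ∑ l : K,
              Fintype.card K * (((sN m a b c : ℝ) - s0) * F a (b + l • c) ^ 2) := by
            refine sum_congr rfl fun b _ => sum_congr rfl fun c _ => ?_
            rw [mul_sum, mul_sum]
            exact sum_congr rfl fun l _ => by ring
        _ = ∑ l : K, ∑ b, ∑ c,
              Fintype.card K * (((sN m a b c : ℝ) - s0) * F a (b + l • c) ^ 2) := by
            rw [sum_comm]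
            have e4 : ∀ b : V, ∑ c, ∑ l : K,
                Fintype.card K * (((sN m a b c : ℝ) - s0) * F a (b + l • c) ^ 2) =
                ∑ l : K, ∑ c,
                Fintype.card K * (((sN m a b c : ℝ) - s0) * F a (b + l • c) ^ 2) :=
              fun b => sum_comm
            rw [sum_comm, sum_congr rfl (fun b _ => e4 b), sum_comm]
        _ = Fintype.card K * ∑ l : K, ∑ b, ∑ c,
              (((sN m a b c : ℝ) - s0) * F a (b + l • c) ^ 2) := by
            simp only [mul_sum]
        _ = _ := by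
            congr 1
            exact sum_congr rfl fun l _ => (e3 l).symm
    rw [sum_congr rfl (fun a _ => e2 a), ← mul_sum]
    refine mul_le_mul_of_nonneg_left ?_ (Nat.cast_nonneg _)
    unfold nrm
    rw [mul_sum]
    refine sum_le_sum fun a _ => ?_
    rw [sum_const, card_univ, nsmul_eq_mul, mul_sum, mul_sum]
    refine sum_le_sum fun b _ => ?_
    rw [← sum_mul, ← mul_assoc]
    by_cases h : F a b = 0
    · simp [h]
    · refine mul_le_mul_of_nonneg_right ?_ (sq_nonneg _)
      have h3 : (Fintype.card K : ℝ) * ∑ c, (sN m a b c : ℝ) ≤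
          (Fintype.card K + 1) * s0 * Fintype.card V := by exact_mod_cast hcount a b h
      rw [sum_sub_distrib, sum_const, card_univ, nsmul_eq_mul]
      linarith
  rw [hsplit, avg_sq F hrow]
  linarith

/-- The correlation of two edges is small. -/
theorem cross (hrow : ∀ a, ∑ b, F a b = 0) (hs0 : ∀ a b c, s0 ≤ sN m a b c)
    (hcount : ∀ a b, F a b ≠ 0 →
      Fintype.card K * ∑ c, sN m a b c ≤ (Fintype.card K + 1) * s0 * Fintype.card V)
    {y z x d1 d2 : Vtx} (h1 : y.1 ≠ z.1) (h2 : z.1 ≠ x.1) (h3 : y.1 ≠ x.1) (hd : d1.1 ≠ d2.1)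
    (hd1 : d1 ≠ z) (hd1' : d1 ≠ opp x) (hd2 : d2 ≠ z) (hd2' : d2 ≠ opp x) :
    |Fintype.card K * ∑ w ∈ Sol m, F (w d1) (w d2) * F (w y) (w z)| ≤
      √(2 * (Fintype.card K + 1)) * ((s0 : ℝ) * Fintype.card V * nrm F) := by
  classical
  have hyz : y ≠ z := ne_of_fst h1
  have hyx : y ≠ opp x := ne_of_fst h3
  have hS : Fintype.card K * ∑ w ∈ Sol m, F (w d1) (w d2) * F (w y) (w z) =
      ∑ w ∈ Sol m, F (w d1) (w d2) * ∑ l : K, F (w y) (w z + l • w x) := by
    have hone : ∀ l : K, ∑ w ∈ Sol m, F (w d1) (w d2) * F (w y) (w z) =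
        ∑ w ∈ Sol m, F (w d1) (w d2) * F (w y) (w z + l • w x) := by
      intro l
      symm
      refine sum_bij' (fun w _ => root z x l w) (fun w _ => root z x (-l) w) ?_ ?_ ?_ ?_ ?_
      · intro w hw
        exact root_mem m hm hw h2 l
      · intro w hw
        exact root_mem m hm hw h2 (-l)
      · intro w _
        rw [root_root h2, neg_add_cancel, root_zero]
      · intro w _
        rw [root_root h2, add_neg_cancel, root_zero]
      · intro w _
        rw [root_of_ne _ _ _ _ hd1 hd1', root_of_ne _ _ _ _ hd2 hd2',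
          root_of_ne _ _ _ _ hyz hyx, root_self]
    calc Fintype.card K * ∑ w ∈ Sol m, F (w d1) (w d2) * F (w y) (w z)
        = ∑ l : K, ∑ w ∈ Sol m, F (w d1) (w d2) * F (w y) (w z) := by
          rw [sum_const, card_univ, nsmul_eq_mul]
      _ = ∑ l : K, ∑ w ∈ Sol m, F (w d1) (w d2) * F (w y) (w z + l • w x) :=
          sum_congr rfl fun l _ => hone l
      _ = _ := by
          rw [sum_comm]
          exact sum_congr rfl fun w _ => by rw [mul_sum]
  have hN0 : 0 ≤ (s0 : ℝ) * Fintype.card V * nrm F := by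
    have := nrm_nonneg F
    positivity
  rw [hS]
  apply abs_le_of_sq_le_sq _ (by positivity)
  rw [mul_pow, Real.sq_sqrt (by positivity)]
  have hcs := sum_mul_sq_le_sq_mul_sq (Sol m) (fun w => F (w d1) (w d2))
    (fun w => ∑ l : K, F (w y) (w z + l • w x))
  have hA := edge_le m hm F s0 hcount hd
  have hB : ∑ w ∈ Sol m, (∑ l : K, F (w y) (w z + l • w x)) ^ 2 ≤
      2 * Fintype.card K * ((s0 : ℝ) * Fintype.card V * nrm F) := by
    rw [sum_face m hm h1 h2 h3 (fun a b c => (∑ l : K, F a (b + l • c)) ^ 2)]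
    exact avg_sq_weight m F s0 hrow hs0 hcount
  set N : ℝ := (s0 : ℝ) * Fintype.card V * nrm F
  set A : ℝ := ∑ w ∈ Sol m, F (w d1) (w d2) ^ 2 with hAdef
  have hA0 : 0 ≤ A := sum_nonneg fun _ _ => sq_nonneg _
  calc (∑ w ∈ Sol m, F (w d1) (w d2) * ∑ l : K, F (w y) (w z + l • w x)) ^ 2
      ≤ A * ∑ w ∈ Sol m, (∑ l : K, F (w y) (w z + l • w x)) ^ 2 := hcs
    _ ≤ A * (2 * Fintype.card K * N) := mul_le_mul_of_nonneg_left hB hA0
    _ = 2 * N * (Fintype.card K * A) := by ring
    _ ≤ 2 * N * ((Fintype.card K + 1) * N) := mul_le_mul_of_nonneg_left hA (by positivity)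
    _ = 2 * (Fintype.card K + 1) * N ^ 2 := by ring

end Est

/-! ### Exceptional solutions -/

section Exc

variable {K V V2 : Type*} [Field K] [Fintype K] [AddCommGroup V] [Module K V] [Fintype V]
  [AddCommGroup V2] [Module K V2] (m : V →ₗ[K] V →ₗ[K] V2) (hm : ∀ a b, m a b = m b a)
  (good : V → V → Prop) (c0 : ℕ)
  (hbad : ∀ u v w : V, good u v → {c : K | ¬ good u (w + c • v)}.ncard ≤ c0)

include hm hbad

open Classical in
/-- One type of exceptions is counted by a root group. -/
theorem orbit (p q : Vtx) (a b : V) {r s t : Vtx} (hst : s.1 ≠ t.1) (hrs : r ≠ s)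
    (hrt : r ≠ opp t) (hps : p ≠ s) (hpt : p ≠ opp t) (hqs : q ≠ s) (hqt : q ≠ opp t) :
    Fintype.card K * #{w ∈ Sol m | (w p = a ∧ w q = b) ∧ good (w r) (w t) ∧
      ¬ good (w r) (w s)} ≤ c0 * #{w ∈ Sol m | w p = a ∧ w q = b} := by
  have hts : t ≠ s := ne_of_fst hst.symm
  have htt : t ≠ opp t := (opp_ne t).symm
  have hc : ∀ c : K, #{w ∈ Sol m | (w p = a ∧ w q = b) ∧ good (w r) (w t) ∧
      ¬ good (w r) (w s)} = #{w ∈ Sol m | (w p = a ∧ w q = b) ∧ good (w r) (w t) ∧
      ¬ good (w r) (w s + c • w t)} := by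
    intro c
    refine card_bij' (fun w _ => root s t (-c) w) (fun w _ => root s t c w) ?_ ?_ ?_ ?_
    · intro w hw
      rw [mem_filter] at hw ⊢
      refine ⟨root_mem m hm hw.1 hst (-c), ?_⟩
      rw [root_of_ne _ _ _ _ hps hpt, root_of_ne _ _ _ _ hqs hqt, root_of_ne _ _ _ _ hrs hrt,
        root_of_ne _ _ _ _ hts htt, root_self]
      have : w s + -c • w t + c • w t = w s := by
        rw [neg_smul]; abel
      rw [this]
      exact hw.2
    · intro w hw
      rw [mem_filter] at hw ⊢
      refine ⟨root_mem m hm hw.1 hst c, ?_⟩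
      rw [root_of_ne _ _ _ _ hps hpt, root_of_ne _ _ _ _ hqs hqt, root_of_ne _ _ _ _ hrs hrt,
        root_of_ne _ _ _ _ hts htt, root_self]
      exact hw.2
    · intro w _
      rw [root_root hst, add_neg_cancel, root_zero]
    · intro w _
      rw [root_root hst, neg_add_cancel, root_zero]
  have hsum : Fintype.card K * #{w ∈ Sol m | (w p = a ∧ w q = b) ∧ good (w r) (w t) ∧
      ¬ good (w r) (w s)} = ∑ c : K, #{w ∈ Sol m | (w p = a ∧ w q = b) ∧ good (w r) (w t) ∧
      ¬ good (w r) (w s + c • w t)} := by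
    rw [← sum_congr rfl (fun c _ => hc c), sum_const, card_univ, smul_eq_mul]
  rw [hsum]
  simp_rw [card_filter]
  rw [sum_comm, mul_sum]
  refine sum_le_sum fun w _ => ?_
  by_cases hw : w p = a ∧ w q = b
  · rw [if_pos hw, mul_one]
    by_cases hg : good (w r) (w t)
    · refine le_trans (le_of_eq ?_) (hbad _ _ (w s) hg)
      rw [← card_filter, Set.ncard_eq_toFinset_card']
      congr 1
      ext c
      simp [hw, hg]
    · simp [hg]
  · simp [hw]

open Classical in
/-- All exceptions over an edge. -/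
theorem exc_card (hsymm : ∀ a b, good a b → good b a) {p q : Vtx} (hpq : p.1 ≠ q.1) (a b : V)
    (hab : good a b) :
    Fintype.card K * #{w ∈ Sol m | (w p = a ∧ w q = b) ∧
      ¬ ∀ s t : Vtx, s.1 ≠ t.1 → good (w s) (w t)} ≤
      11 * c0 * #{w ∈ Sol m | w p = a ∧ w q = b} := by
  obtain ⟨z, hqz, hpz⟩ := exists_third hpq
  have o := fun {r s t : Vtx} => orbit m hm good c0 hbad p q a b (r := r) (s := s) (t := t)
  have n1 : p ≠ q := ne_of_fst hpq
  have n2 : p ≠ z := ne_of_fst hpz
  have n3 : q ≠ z := ne_of_fst hqz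
  have n4 : p ≠ opp p := (opp_ne p).symm
  have n5 : q ≠ opp q := (opp_ne q).symm
  have n6 : z ≠ opp z := (opp_ne z).symm
  have n7 : p ≠ opp q := ne_of_fst hpq
  have n8 : p ≠ opp z := ne_of_fst hpz
  have n9 : q ≠ opp p := ne_of_fst hpq.symm
  have n10 : q ≠ opp z := ne_of_fst hqz
  have n11 : z ≠ opp p := ne_of_fst hpz.symm
  have n12 : z ≠ opp q := ne_of_fst hqz.symm
  have n13 : opp p ≠ opp q := ne_of_fst hpq
  have n14 : opp p ≠ opp z := ne_of_fst hpz
  have n15 : opp q ≠ opp z := ne_of_fst hqz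
  have e1 := o (r := p) (s := z) (t := q) (Ne.symm hqz) n2 n7 n2 n7 n3 n5
  have e2 := o (r := p) (s := opp z) (t := q) (Ne.symm hqz) n8 n7 n8 n7 n10 n5
  have e3 := o (r := q) (s := z) (t := p) (Ne.symm hpz) n3 n9 n2 n4 n3 n9
  have e4 := o (r := q) (s := opp z) (t := p) (Ne.symm hpz) n10 n9 n8 n4 n10 n9
  have e5 := o (r := p) (s := opp q) (t := z) hqz n7 n8 n7 n8 n5 n10
  have e6 := o (r := q) (s := opp p) (t := z) hpz n9 n10 n4 n8 n9 n10
  have e7 := o (r := z) (s := opp p) (t := q) hpq n11 n12 n4 n7 n9 n5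
  have e8 := o (r := z) (s := opp q) (t := p) (Ne.symm hpq) n12 n11 n7 n4 n5 n9
  have e9 := o (r := opp z) (s := opp p) (t := q) hpq n14.symm n15.symm n4 n7 n9 n5
  have e10 := o (r := opp z) (s := opp q) (t := p) (Ne.symm hpq) n15.symm n14.symm n7 n4 n5 n9
  have e11 := o (r := opp q) (s := opp p) (t := opp z) hpz n13.symm
    (by rw [opp_opp]; exact n12.symm) n4 (by rw [opp_opp]; exact n2) n9
    (by rw [opp_opp]; exact n3)
  have hcov : ∀ v : Vtx, v = p ∨ v = q ∨ v = z ∨ v = opp p ∨ v = opp q ∨ v = opp z := by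
    intro v
    have hu : (univ : Finset (Fin 3)) = {p.1, q.1, z.1} := by
      symm
      rw [← card_eq_iff_eq_univ, card_eq_three.2 ⟨_, _, _, hpq, hpz, hqz, rfl⟩]
      rfl
    have hv : v.1 ∈ ({p.1, q.1, z.1} : Finset (Fin 3)) := hu ▸ mem_univ _
    simp only [mem_insert, mem_singleton] at hv
    rcases hv with hv | hv | hv
    · rcases eq_or_opp hv with h | h
      · exact Or.inl h
      · exact Or.inr (Or.inr (Or.inr (Or.inl h)))
    · rcases eq_or_opp hv with h | h
      · exact Or.inr (Or.inl h)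
      · exact Or.inr (Or.inr (Or.inr (Or.inr (Or.inl h))))
    · rcases eq_or_opp hv with h | h
      · exact Or.inr (Or.inr (Or.inl h))
      · exact Or.inr (Or.inr (Or.inr (Or.inr (Or.inr h))))
  let E : Vtx → Vtx → Vtx → Finset (Vtx → V) := fun r s t =>
    {w ∈ Sol m | (w p = a ∧ w q = b) ∧ good (w r) (w t) ∧ ¬ good (w r) (w s)}
  have hsub : ({w ∈ Sol m | (w p = a ∧ w q = b) ∧
      ¬ ∀ s t : Vtx, s.1 ≠ t.1 → good (w s) (w t)} : Finset (Vtx → V)) ⊆
      E p z q ∪ (E p (opp z) q ∪ (E q z p ∪ (E q (opp z) p ∪ (E p (opp q) z ∪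
      (E q (opp p) z ∪ (E z (opp p) q ∪ (E z (opp q) p ∪ (E (opp z) (opp p) q ∪
      (E (opp z) (opp q) p ∪ E (opp q) (opp p) (opp z)))))))))) := by
    intro w hw
    rw [mem_filter] at hw
    obtain ⟨hwS, ⟨hwa, hwb⟩, hwn⟩ := hw
    by_contra hcon
    apply hwn
    simp only [mem_union, not_or, E, mem_filter, hwS, true_and, hwa, hwb, not_and, not_not] at hcon
    obtain ⟨k1, k2, k3, k4, k5, k6, k7, k8, k9, k10, k11⟩ := hcon
    have hba := hsymm _ _ hab
    have m1 := k1 hab
    have m2 := k2 hab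
    have m3 := k3 hba
    have m4 := k4 hba
    have m5 := k5 m1
    have m6 := k6 m3
    have m7 := k7 (hsymm _ _ m3)
    have m8 := k8 (hsymm _ _ m1)
    have m9 := k9 (hsymm _ _ m4)
    have m10 := k10 (hsymm _ _ m2)
    have m11 := k11 (hsymm _ _ m10)
    intro s t hst
    rcases hcov s with rfl | rfl | rfl | rfl | rfl | rfl <;>
    rcases hcov t with rfl | rfl | rfl | rfl | rfl | rfl <;>
    first
      | exact absurd rfl hst
      | ((try simp only [hwa, hwb])
         first
           | assumption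
           | (apply hsymm; assumption))
  refine le_trans (Nat.mul_le_mul_left _ (le_trans (card_le_card hsub)
    (le_trans (card_union_le _ _) (Nat.add_le_add_left (le_trans (card_union_le _ _)
    (Nat.add_le_add_left (le_trans (card_union_le _ _) (Nat.add_le_add_left
    (le_trans (card_union_le _ _) (Nat.add_le_add_left (le_trans (card_union_le _ _)
    (Nat.add_le_add_left (le_trans (card_union_le _ _) (Nat.add_le_add_left
    (le_trans (card_union_le _ _) (Nat.add_le_add_left (le_trans (card_union_le _ _)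
    (Nat.add_le_add_left (le_trans (card_union_le _ _) (Nat.add_le_add_left
    (card_union_le _ _) _)) _)) _)) _)) _)) _)) _)) _)) _)))) ?_
  simp only [E, Nat.mul_add]
  linarith

end Exc

/-! ### The gauge -/

/-- Least squares: `φ` is changed by a difference `u a - u b` so that all row sums over the good
pairs vanish. -/
theorem gauge_ex {V : Type*} [Fintype V] (good : V → V → Prop) (hsymm : ∀ a b, good a b → good b a)
    (φ : V → V → ℝ) (hanti : ∀ a b, good a b → φ a b = -φ b a) :
    ∃ (u : V → ℝ) (F : V → V → ℝ), (∀ a b, good a b → F a b = φ a b - (u a - u b)) ∧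
      (∀ a b, ¬ good a b → F a b = 0) ∧ (∀ a b, F a b = -F b a) ∧ ∀ a, ∑ b, F a b = 0 := by
  classical
  let D : (V → ℝ) →ₗ[ℝ] EuclideanSpace ℝ (V × V) :=
    { toFun := fun u => WithLp.toLp 2 (fun p => if good p.1 p.2 then u p.1 - u p.2 else 0)
      map_add' := by
        intro u v
        ext p
        simp only [PiLp.add_apply, Pi.add_apply]
        split_ifs <;> ring
      map_smul' := by
        intro c u
        ext p
        simp only [PiLp.smul_apply, Pi.smul_apply, smul_eq_mul, RingHom.id_apply]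
        split_ifs <;> ring }
  let v : EuclideanSpace ℝ (V × V) := WithLp.toLp 2 (fun p => if good p.1 p.2 then φ p.1 p.2 else 0)
  obtain ⟨y, hy, z, hz, hv⟩ := (LinearMap.range D).exists_add_mem_mem_orthogonal v
  obtain ⟨u, rfl⟩ := hy
  have hz' : ∀ p, z p = v p - D u p := by
    intro p
    rw [hv]
    simp
  refine ⟨u, fun a b => z (a, b), ?_, ?_, ?_, ?_⟩
  · intro a b h
    simp only [hz', v, D]
    simp [h]
  · intro a b h
    simp only [hz', v, D]
    simp [h]
  · intro a b
    simp only [hz', v, D]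
    by_cases h : good a b
    · have h' := hsymm _ _ h
      simp only [LinearMap.coe_mk, AddHom.coe_mk, h, h', if_true]
      rw [hanti a b h]
      ring
    · have h' : ¬ good b a := fun h' => h (hsymm _ _ h')
      simp [h, h']
  · intro a
    have hanti' : ∀ b, z (b, a) = -z (a, b) := by
      intro b
      simp only [hz', v, D]
      by_cases h : good a b
      · have h' := hsymm _ _ h
        simp only [LinearMap.coe_mk, AddHom.coe_mk, h, h', if_true]
        rw [hanti a b h]
        ring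
      · have h' : ¬ good b a := fun h' => h (hsymm _ _ h')
        simp [h, h']
    have hzero : ∀ b c, ¬ good b c → z (b, c) = 0 := by
      intro b c h
      simp only [hz', v, D]
      simp [h]
    have h0 := (Submodule.mem_orthogonal _ z).1 hz (D (Pi.single a 1)) ⟨_, rfl⟩
    rw [PiLp.inner_apply] at h0
    have h1 : ∑ p : V × V, inner ℝ (D (Pi.single a 1) p) (z p) =
        ∑ b, z (a, b) - ∑ b, z (b, a) := by
      rw [Fintype.sum_prod_type]
      have h2 : ∀ b c, inner ℝ (D (Pi.single a 1) (b, c)) (z (b, c)) =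
          (if b = a then z (b, c) else 0) - (if c = a then z (b, c) else 0) := by
        intro b c
        simp only [D, LinearMap.coe_mk, AddHom.coe_mk]
        by_cases h : good b c
        · simp only [h, if_true, Pi.single_apply]
          by_cases hb : b = a <;> by_cases hc : c = a <;> simp [hb, hc]
        · simp [h, hzero b c h]
      simp_rw [h2, sum_sub_distrib]
      congr 1
      · rw [sum_comm]
        refine sum_congr rfl fun c _ => ?_
        simp
      · refine sum_congr rfl fun b _ => ?_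
        simp
    rw [h1] at h0
    have h3 : ∑ b, z (b, a) = -∑ b, z (a, b) := by
      rw [← sum_neg_distrib]
      exact sum_congr rfl fun b _ => hanti' b
    rw [h3] at h0
    linarith

/-! ### The main estimate -/

section Main

variable {K V V2 : Type*} [Field K] [Fintype K] [AddCommGroup V] [Module K V] [Fintype V]
  [AddCommGroup V2] [Module K V2] (m : V →ₗ[K] V →ₗ[K] V2) (hm : ∀ a b, m a b = m b a)
  (good : V → V → Prop) (hsymm : ∀ a b, good a b → good b a) (c0 : ℕ)
  (hbad : ∀ u v w : V, good u v → {c : K | ¬ good u (w + c • v)}.ncard ≤ c0)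

include hm hsymm hbad

open Classical in
theorem exc_sum (F : V → V → ℝ) (hF : ∀ a b, ¬ good a b → F a b = 0) {p q : Vtx}
    (hpq : p.1 ≠ q.1) :
    Fintype.card K * ∑ w ∈ Sol m with ¬ ∀ s t : Vtx, s.1 ≠ t.1 → good (w s) (w t),
      F (w p) (w q) ^ 2 ≤ 11 * c0 * ∑ w ∈ Sol m, F (w p) (w q) ^ 2 := by
  rw [sum_fib ((Sol m).filter (fun w => ¬ ∀ s t : Vtx, s.1 ≠ t.1 → good (w s) (w t)))
      (fun w => (w p, w q)) (fun t => F t.1 t.2 ^ 2),
    sum_fib (Sol m) (fun w => (w p, w q)) (fun t => F t.1 t.2 ^ 2), mul_sum, mul_sum]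
  refine sum_le_sum fun t _ => ?_
  by_cases ht : good t.1 t.2
  · have h := exc_card m hm good c0 hbad hsymm hpq t.1 t.2 ht
    have h1 : #{w ∈ (Sol m).filter (fun w => ¬ ∀ s t : Vtx, s.1 ≠ t.1 → good (w s) (w t)) |
        (w p, w q) = t} = #{w ∈ Sol m | (w p = t.1 ∧ w q = t.2) ∧
        ¬ ∀ s t : Vtx, s.1 ≠ t.1 → good (w s) (w t)} := by
      congr 1
      ext w
      simp only [mem_filter, Prod.ext_iff]
      tauto
    have h2 : #{w ∈ Sol m | (w p, w q) = t} = #{w ∈ Sol m | w p = t.1 ∧ w q = t.2} := by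
      congr 1
      ext w
      simp only [mem_filter, Prod.ext_iff]
    rw [h1, h2, ← mul_assoc, ← mul_assoc]
    refine mul_le_mul_of_nonneg_right ?_ (sq_nonneg _)
    exact_mod_cast h
  · rw [hF _ _ ht]
    simp

/-- The combinatorial vanishing theorem. -/
theorem core_vanish (s0 : ℕ) (hs0pos : 0 < s0) (hs0 : ∀ a b c, s0 ≤ sN m a b c)
    (hcount : ∀ a b, good a b →
      Fintype.card K * ∑ c, sN m a b c ≤ (Fintype.card K + 1) * s0 * Fintype.card V)
    (F : V → V → ℝ) (hF : ∀ a b, ¬ good a b → F a b = 0) (hanti : ∀ a b, F a b = -F b a)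
    (hrow : ∀ a, ∑ b, F a b = 0)
    (hrel : ∀ w : Vtx → V, rel m w = 0 → (∀ s t : Vtx, s.1 ≠ t.1 → good (w s) (w t)) →
      ∑ i : Fin 3, ∑ a : Bool, ∑ b : Bool, F (w (i, a)) (w (i + 1, b)) = 0)
    (hQ : 10 ^ 4 * (c0 + 1) ^ 2 ≤ Fintype.card K) : ∀ a b, F a b = 0 := by
  classical
  have hcountF : ∀ a b, F a b ≠ 0 →
      Fintype.card K * ∑ c, sN m a b c ≤ (Fintype.card K + 1) * s0 * Fintype.card V := by
    intro a b h
    apply hcount
    by_contra h'
    exact h (hF a b h')
  set Q : ℝ := (Fintype.card K : ℝ) with hQdef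
  set N : ℝ := (s0 : ℝ) * Fintype.card V * nrm F with hNdef
  have hV : 0 < (Fintype.card V : ℝ) := by
    have : Nonempty V := ⟨0⟩
    exact_mod_cast Fintype.card_pos
  have hn := nrm_nonneg F
  have hs0' : (0 : ℝ) < s0 := by exact_mod_cast hs0pos
  have hN0 : 0 ≤ N := by positivity
  have hQ' : (10 : ℝ) ^ 4 * (c0 + 1) ^ 2 ≤ Q := by
    rw [hQdef]
    exact_mod_cast hQ
  have hc0 : (0 : ℝ) ≤ c0 := Nat.cast_nonneg _
  have hQ1 : (10 : ℝ) ^ 4 ≤ Q := le_trans (by nlinarith) hQ'
  have hQ0 : 0 ≤ Q := by linarith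
  -- the correlations
  set S : Fin 3 → Bool → Bool → ℝ := fun i a b => ∑ w ∈ Sol m,
    F (w ((0 : Fin 3), false)) (w ((1 : Fin 3), false)) * F (w (i, a)) (w (i + 1, b)) with hSdef
  have hsum : ∑ i : Fin 3, ∑ a : Bool, ∑ b : Bool, S i a b = ∑ w ∈ Sol m,
      F (w ((0 : Fin 3), false)) (w ((1 : Fin 3), false)) *
        ∑ i : Fin 3, ∑ a : Bool, ∑ b : Bool, F (w (i, a)) (w (i + 1, b)) := by
    have e1 : ∀ i a, ∑ b : Bool, S i a b = ∑ w ∈ Sol m,
        F (w ((0 : Fin 3), false)) (w ((1 : Fin 3), false)) *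
          ∑ b : Bool, F (w (i, a)) (w (i + 1, b)) := by
      intro i a
      simp only [hSdef]
      rw [sum_comm]
      exact sum_congr rfl fun w _ => by rw [mul_sum]
    have e2 : ∀ i, ∑ a : Bool, ∑ b : Bool, S i a b = ∑ w ∈ Sol m,
        F (w ((0 : Fin 3), false)) (w ((1 : Fin 3), false)) *
          ∑ a : Bool, ∑ b : Bool, F (w (i, a)) (w (i + 1, b)) := by
      intro i
      rw [sum_congr rfl (fun a _ => e1 i a), sum_comm]
      exact sum_congr rfl fun w _ => by rw [mul_sum]
    rw [sum_congr rfl (fun i _ => e2 i), sum_comm]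
    exact sum_congr rfl fun w _ => by rw [mul_sum]
  -- the exceptional solutions
  have hexc : Q * |∑ i : Fin 3, ∑ a : Bool, ∑ b : Bool, S i a b| ≤ 264 * c0 * N := by
    set Z : Finset (Vtx → V) :=
      (Sol m).filter (fun w => ¬ ∀ s t : Vtx, s.1 ≠ t.1 → good (w s) (w t)) with hZ
    have h1 : ∑ w ∈ Sol m, F (w ((0 : Fin 3), false)) (w ((1 : Fin 3), false)) *
        ∑ i : Fin 3, ∑ a : Bool, ∑ b : Bool, F (w (i, a)) (w (i + 1, b)) =
        ∑ w ∈ Z, F (w ((0 : Fin 3), false)) (w ((1 : Fin 3), false)) *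
        ∑ i : Fin 3, ∑ a : Bool, ∑ b : Bool, F (w (i, a)) (w (i + 1, b)) := by
      symm
      refine sum_subset (filter_subset _ _) fun w hw hwZ => ?_
      have hg : ∀ s t : Vtx, s.1 ≠ t.1 → good (w s) (w t) := by
        by_contra h
        exact hwZ (mem_filter.2 ⟨hw, h⟩)
      rw [hrel w ((mem_Sol m w).1 hw) hg, mul_zero]
    have hedge : ∀ {p q : Vtx}, p.1 ≠ q.1 → Q * ∑ w ∈ Z, F (w p) (w q) ^ 2 ≤ 22 * c0 * N := by
      intro p q hpq
      refine le_trans (exc_sum m hm good hsymm c0 hbad F hF hpq) ?_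
      have h2 := edge_le m hm F s0 hcountF hpq
      have h3 : ∑ w ∈ Sol m, F (w p) (w q) ^ 2 ≤ 2 * N := by
        have h4 : (Q + 1) * N ≤ Q * (2 * N) := by nlinarith
        have h5 : 0 < Q := by linarith
        exact le_of_mul_le_mul_left (le_trans h2 h4) h5
      nlinarith
    rw [hsum, h1]
    have h2 : |∑ w ∈ Z, F (w ((0 : Fin 3), false)) (w ((1 : Fin 3), false)) *
        ∑ i : Fin 3, ∑ a : Bool, ∑ b : Bool, F (w (i, a)) (w (i + 1, b))| ≤
        ∑ i : Fin 3, ∑ a : Bool, ∑ b : Bool, ∑ w ∈ Z,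
          (F (w ((0 : Fin 3), false)) (w ((1 : Fin 3), false)) ^ 2 +
            F (w (i, a)) (w (i + 1, b)) ^ 2) / 2 := by
      refine le_trans (abs_sum_le_sum_abs _ _) ?_
      have h3 : ∀ w : Vtx → V, |F (w ((0 : Fin 3), false)) (w ((1 : Fin 3), false)) *
          ∑ i : Fin 3, ∑ a : Bool, ∑ b : Bool, F (w (i, a)) (w (i + 1, b))| ≤
          ∑ i : Fin 3, ∑ a : Bool, ∑ b : Bool,
          (F (w ((0 : Fin 3), false)) (w ((1 : Fin 3), false)) ^ 2 +
            F (w (i, a)) (w (i + 1, b)) ^ 2) / 2 := by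
        intro w
        simp only [mul_sum]
        refine le_trans (abs_sum_le_sum_abs _ _) (sum_le_sum fun i _ => ?_)
        refine le_trans (abs_sum_le_sum_abs _ _) (sum_le_sum fun a _ => ?_)
        refine le_trans (abs_sum_le_sum_abs _ _) (sum_le_sum fun b _ => ?_)
        rw [abs_mul, ← sq_abs (F (w ((0 : Fin 3), false)) (w ((1 : Fin 3), false))),
          ← sq_abs (F (w (i, a)) (w (i + 1, b)))]
        nlinarith [sq_nonneg (|F (w ((0 : Fin 3), false)) (w ((1 : Fin 3), false))| -
          |F (w (i, a)) (w (i + 1, b))|)]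
      refine le_trans (sum_le_sum fun w _ => h3 w) (le_of_eq ?_)
      rw [sum_comm]
      refine sum_congr rfl fun i _ => ?_
      rw [sum_comm]
      refine sum_congr rfl fun a _ => ?_
      rw [sum_comm]
    have h4 : ∀ (i : Fin 3) (a b : Bool), Q * ∑ w ∈ Z,
        (F (w ((0 : Fin 3), false)) (w ((1 : Fin 3), false)) ^ 2 +
          F (w (i, a)) (w (i + 1, b)) ^ 2) / 2 ≤ 22 * c0 * N := by
      intro i a b
      have h5 := hedge (p := ((0 : Fin 3), false)) (q := ((1 : Fin 3), false)) (by decide)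
      have h6 := hedge (p := (i, a)) (q := (i + 1, b)) (by
        revert i; simp)
      rw [← sum_div, sum_add_distrib]
      linarith
    refine le_trans (mul_le_mul_of_nonneg_left h2 hQ0) ?_
    simp only [mul_sum] at h4 ⊢
    refine le_trans (sum_le_sum fun i _ => sum_le_sum fun a _ => sum_le_sum fun b _ => h4 i a b) ?_
    simp
    linarith
  have hpos : ∀ y z x : Vtx, y.1 ≠ z.1 → z.1 ≠ x.1 → y.1 ≠ x.1 →
      ((0 : Fin 3), false) ≠ z → ((0 : Fin 3), false) ≠ opp x →
      ((1 : Fin 3), false) ≠ z → ((1 : Fin 3), false) ≠ opp x →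
      -(√(2 * (Q + 1)) * N) ≤ Q * ∑ w ∈ Sol m,
        F (w ((0 : Fin 3), false)) (w ((1 : Fin 3), false)) * F (w y) (w z) ∧
      -(√(2 * (Q + 1)) * N) ≤ Q * ∑ w ∈ Sol m,
        F (w ((0 : Fin 3), false)) (w ((1 : Fin 3), false)) * F (w z) (w y) := by
    intro y z x h1 h2 h3 h4 h5 h6 h7
    have h := cross m hm F s0 hrow hs0 hcountF (y := y) (z := z) (x := x)
      (d1 := ((0 : Fin 3), false)) (d2 := ((1 : Fin 3), false)) h1 h2 h3 (by decide) h4 h5 h6 h7
    have hflip : ∑ w ∈ Sol m, F (w ((0 : Fin 3), false)) (w ((1 : Fin 3), false)) *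
        F (w z) (w y) = -∑ w ∈ Sol m, F (w ((0 : Fin 3), false)) (w ((1 : Fin 3), false)) *
        F (w y) (w z) := by
      rw [← sum_neg_distrib]
      refine sum_congr rfl fun w _ => ?_
      rw [hanti (w z) (w y)]
      ring
    rw [hflip]
    rw [abs_le] at h
    constructor
    · exact h.1
    · linarith [h.2]
  have hdiag : N ≤ S 0 false false := by
    have h := edge_ge m hm F s0 hs0 (s := ((0 : Fin 3), false)) (t := ((1 : Fin 3), false))
      (by decide)
    have h' : S 0 false false = ∑ w ∈ Sol m,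
        F (w ((0 : Fin 3), false)) (w ((1 : Fin 3), false)) ^ 2 := by
      simp only [hSdef, zero_add]
      exact sum_congr rfl fun w _ => by ring
    rw [h']
    exact h
  have h001 := (hpos (0, false) (1, true) (2, false) (by decide) (by decide) (by decide)
    (by decide) (by decide) (by decide) (by decide)).1
  have h010 := (hpos (1, false) (0, true) (2, false) (by decide) (by decide) (by decide)
    (by decide) (by decide) (by decide) (by decide)).2
  have h011 := (hpos (0, true) (1, true) (2, false) (by decide) (by decide) (by decide)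
    (by decide) (by decide) (by decide) (by decide)).1
  have h1 := fun a b => (hpos (1, a) (2, b) (0, false) (show (1 : Fin 3) ≠ 2 by decide)
    (show (2 : Fin 3) ≠ 0 by decide) (show (1 : Fin 3) ≠ 0 by decide)
    (by simp) (by simp [opp]) (by simp) (by simp [opp])).1
  have h2 := fun a b => (hpos (0, b) (2, a) (1, false) (show (0 : Fin 3) ≠ 2 by decide)
    (show (2 : Fin 3) ≠ 1 by decide) (show (0 : Fin 3) ≠ 1 by decide)
    (by simp) (by simp [opp]) (by simp) (by simp [opp])).2
  have hexp : ∑ i : Fin 3, ∑ a : Bool, ∑ b : Bool, S i a b =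
      S 0 false false + S 0 false true + S 0 true false + S 0 true true +
      (S 1 false false + S 1 false true + S 1 true false + S 1 true true) +
      (S 2 false false + S 2 false true + S 2 true false + S 2 true true) := by
    simp only [Fin.sum_univ_three, Fintype.sum_bool]
    ring
  set θ := √(2 * (Q + 1)) with hθ
  have g1 : ∀ a b, -(θ * N) ≤ Q * S 1 a b := fun a b => h1 a b
  have g2 : ∀ a b, -(θ * N) ≤ Q * S 2 a b := fun a b => h2 a b
  have g001 : -(θ * N) ≤ Q * S 0 false true := h001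
  have g010 : -(θ * N) ≤ Q * S 0 true false := h010
  have g011 : -(θ * N) ≤ Q * S 0 true true := h011
  have hθle : θ ≤ Q / 50 := by
    rw [hθ]
    rw [Real.sqrt_le_left (by positivity)]
    nlinarith
  have hfinal : (Q - 11 * θ - 264 * c0) * N ≤ 0 := by
    rw [hexp] at hexc
    have hd := mul_le_mul_of_nonneg_left hdiag hQ0
    have hle := le_trans (mul_le_mul_of_nonneg_left (le_abs_self _) hQ0) hexc
    linarith [g1 false false, g1 false true, g1 true false, g1 true true,
      g2 false false, g2 false true, g2 true false, g2 true true]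
  have hgap : 0 < Q - 11 * θ - 264 * c0 := by nlinarith
  have hN' : N = 0 := by
    refine le_antisymm ?_ hN0
    by_contra hcon
    push Not at hcon
    have := mul_pos hgap hcon
    linarith
  have hnz : nrm F = 0 := by
    rw [hNdef] at hN'
    rcases mul_eq_zero.1 hN' with h | h
    · exact absurd h (mul_pos hs0' hV).ne'
    · exact h
  intro a b
  have ha := (sum_eq_zero_iff_of_nonneg (fun x _ => sum_nonneg fun y _ =>
    sq_nonneg (F x y))).1 hnz a (mem_univ a)
  have hb := (sum_eq_zero_iff_of_nonneg (fun y _ => sq_nonneg (F a y))).1 ha b (mem_univ b)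
  exact pow_eq_zero_iff (two_ne_zero) |>.1 hb

/-- **The export.** The symbol is a difference `u a - u b` on all good pairs. -/
theorem core (s0 : ℕ) (hs0pos : 0 < s0) (hs0 : ∀ a b c, s0 ≤ sN m a b c)
    (hcount : ∀ a b, good a b →
      Fintype.card K * ∑ c, sN m a b c ≤ (Fintype.card K + 1) * s0 * Fintype.card V)
    (φ : V → V → ℝ) (hanti : ∀ a b, good a b → φ a b = -φ b a)
    (hrel : ∀ a b c a' b' c' : V, m a a' + m b b' + m c c' = 0 →
      good a b → good a b' → good a' b → good a' b' →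
      good b c → good b c' → good b' c → good b' c' →
      good c a → good c a' → good c' a → good c' a' →
      φ a b + φ a b' + φ a' b + φ a' b' + φ b c + φ b c' + φ b' c + φ b' c' +
        φ c a + φ c a' + φ c' a + φ c' a' = 0)
    (hQ : 10 ^ 4 * (c0 + 1) ^ 2 ≤ Fintype.card K) :
    ∃ u : V → ℝ, ∀ a b, good a b → φ a b = u a - u b := by
  obtain ⟨u, F, hF1, hF2, hF3, hF4⟩ := gauge_ex good hsymm φ hanti
  refine ⟨u, fun a b hab => ?_⟩
  have h0 := core_vanish m hm good hsymm c0 hbad s0 hs0pos hs0 hcount F hF2 hF3 hF4 ?_ hQ a b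
  · rw [hF1 a b hab] at h0
    linarith
  intro w hw hg
  have g := fun (s t : Vtx) (h : s.1 ≠ t.1) => hF1 (w s) (w t) (hg s t h)
  have n01 : ∀ a b : Bool, (((0 : Fin 3), a) : Vtx).1 ≠ (((1 : Fin 3), b) : Vtx).1 := by
    intro a b
    change (0 : Fin 3) ≠ 1
    decide
  have n12 : ∀ a b : Bool, (((1 : Fin 3), a) : Vtx).1 ≠ (((2 : Fin 3), b) : Vtx).1 := by
    intro a b
    change (1 : Fin 3) ≠ 2
    decide
  have n20 : ∀ a b : Bool, (((2 : Fin 3), a) : Vtx).1 ≠ (((0 : Fin 3), b) : Vtx).1 := by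
    intro a b
    change (2 : Fin 3) ≠ 0
    decide
  have hr := hrel (w (0, false)) (w (1, false)) (w (2, false)) (w (0, true)) (w (1, true))
    (w (2, true)) (by rw [← hw, rel, Fin.sum_univ_three])
    (hg _ _ (n01 _ _)) (hg _ _ (n01 _ _)) (hg _ _ (n01 _ _)) (hg _ _ (n01 _ _))
    (hg _ _ (n12 _ _)) (hg _ _ (n12 _ _)) (hg _ _ (n12 _ _)) (hg _ _ (n12 _ _))
    (hg _ _ (n20 _ _)) (hg _ _ (n20 _ _)) (hg _ _ (n20 _ _)) (hg _ _ (n20 _ _))
  simp only [Fin.sum_univ_three, Fintype.sum_bool]
  have e2 : (2 : Fin 3) + 1 = 0 := by decide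
  have e1 : (1 : Fin 3) + 1 = 2 := by decide
  have e0 : (0 : Fin 3) + 1 = 1 := by decide
  rw [e2, e1, e0, g _ _ (n01 _ _), g _ _ (n01 _ _), g _ _ (n01 _ _), g _ _ (n01 _ _),
    g _ _ (n12 _ _), g _ _ (n12 _ _), g _ _ (n12 _ _), g _ _ (n12 _ _),
    g _ _ (n20 _ _), g _ _ (n20 _ _), g _ _ (n20 _ _), g _ _ (n20 _ _)]
  linarith

end Main

end Pool.Agent.K3.Harder
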