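import Pool.Agent.K3.EStein

/-!
K3 project, block E.  The third Milnor K-group of a field, and: it is torsion if and only if
every rational Steinberg functional in three variables vanishes.
-/

open scoped TensorProduct

namespace Pool.Agent.K3

/-- The threefold tensor power of the multiplicative group. -/
abbrev T3 (F : Type*) [Field F] : Type _ :=
  Additive Fˣ ⊗[ℤ] (Additive Fˣ ⊗[ℤ] Additive Fˣ)

/-- The pure tensor `a ⊗ b ⊗ c`. -/
def tens {F : Type*} [Field F] (a b c : Fˣ) : T3 F :=
  Additive.ofMul a ⊗ₜ (Additive.ofMul b ⊗ₜ Additive.ofMul c)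

/-- The subgroup generated by the Steinberg relations. -/
def steinbergRel (F : Type*) [Field F] : AddSubgroup (T3 F) :=
  AddSubgroup.closure
    {t | ∃ a b c : Fˣ, (a : F) + b = 1 ∧ (t = tens a b c ∨ t = tens c a b)}

/-- The third Milnor K-group `K_3^M(F)`. -/
abbrev KM3 (F : Type*) [Field F] : Type _ := T3 F ⧸ steinbergRel F

/-- The symbol `{a, b, c}`. -/
def symb {F : Type*} [Field F] (a b c : Fˣ) : KM3 F := QuotientAddGroup.mk (tens a b c)

section

variable {F : Type*} [Field F]

theorem symb_mul1 (a a' b c : Fˣ) : symb (a * a') b c = symb a b c + symb a' b c := by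
  have h : tens (a * a') b c = tens a b c + tens a' b c := by
    simp only [tens, ofMul_mul, TensorProduct.add_tmul]
  rw [symb, h]
  rfl

theorem symb_mul2 (a b b' c : Fˣ) : symb a (b * b') c = symb a b c + symb a b' c := by
  have h : tens a (b * b') c = tens a b c + tens a b' c := by
    simp only [tens, ofMul_mul, TensorProduct.add_tmul, TensorProduct.tmul_add]
  rw [symb, h]
  rfl

theorem symb_mul3 (a b c c' : Fˣ) : symb a b (c * c') = symb a b c + symb a b c' := by
  have h : tens a b (c * c') = tens a b c + tens a b c' := by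
    simp only [tens, ofMul_mul, TensorProduct.tmul_add]
  rw [symb, h]
  rfl

theorem symb_st12 (a b c : Fˣ) (h : (a : F) + b = 1) : symb a b c = 0 :=
  (QuotientAddGroup.eq_zero_iff _).2 (AddSubgroup.subset_closure ⟨a, b, c, h, Or.inl rfl⟩)

theorem symb_st23 (a b c : Fˣ) (h : (a : F) + b = 1) : symb c a b = 0 :=
  (QuotientAddGroup.eq_zero_iff _).2 (AddSubgroup.subset_closure ⟨a, b, c, h, Or.inr rfl⟩)

/-- The symbols generate the group. -/
theorem KM3_induction {P : KM3 F → Prop} (h0 : P 0) (hs : ∀ a b c, P (symb a b c))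
    (hadd : ∀ x y, P x → P y → P (x + y)) (x : KM3 F) : P x := by
  obtain ⟨t, rfl⟩ := QuotientAddGroup.mk_surjective x
  induction t using TensorProduct.induction_on with
  | zero => exact h0
  | tmul a t =>
    induction t using TensorProduct.induction_on with
    | zero =>
      rw [TensorProduct.tmul_zero]
      exact h0
    | tmul b c => exact hs a.toMul b.toMul c.toMul
    | add t t' ht ht' =>
      rw [TensorProduct.tmul_add]
      exact hadd _ _ ht ht'
  | add t t' ht ht' => exact hadd _ _ ht ht'

/-- A homomorphism on the Milnor K-group is a Steinberg functional. -/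
theorem isStein3_of_hom {V : Type*} [AddCommGroup V] (l : KM3 F →+ V) :
    ∃ f : F → F → F → V, IsStein3 f ∧ ∀ a b c : Fˣ, f a b c = l (symb a b c) := by
  classical
  refine ⟨fun x y z => if hx : x ≠ 0 then (if hy : y ≠ 0 then (if hz : z ≠ 0 then
    l (symb (Units.mk0 x hx) (Units.mk0 y hy) (Units.mk0 z hz)) else 0) else 0) else 0, ?_, ?_⟩
  · constructor
    · intro x x' y z hx hx' hy hz
      simp only [dif_pos hx, dif_pos hx', dif_pos hy, dif_pos hz, dif_pos (mul_ne_zero hx hx')]
      rw [← map_add, ← symb_mul1]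
      congr 2
      exact Units.ext rfl
    · intro x y y' z hx hy hy' hz
      simp only [dif_pos hx, dif_pos hy, dif_pos hy', dif_pos hz, dif_pos (mul_ne_zero hy hy')]
      rw [← map_add, ← symb_mul2]
      congr 2
      exact Units.ext rfl
    · intro x y z z' hx hy hz hz'
      simp only [dif_pos hx, dif_pos hy, dif_pos hz, dif_pos hz', dif_pos (mul_ne_zero hz hz')]
      rw [← map_add, ← symb_mul3]
      congr 2
      exact Units.ext rfl
    · intro x z hx hx1 hz
      simp only [dif_pos hx, dif_pos hx1, dif_pos hz]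
      rw [symb_st12 _ _ _ (by simp), map_zero]
    · intro x z hx hx1 hz
      simp only [dif_pos hx, dif_pos hx1, dif_pos hz]
      rw [symb_st23 _ _ _ (by simp), map_zero]
  · intro a b c
    simp only [dif_pos a.ne_zero, dif_pos b.ne_zero, dif_pos c.ne_zero, Units.mk0_val]

/-- An element of an abelian group which is killed by all homomorphisms to `ℚ` is torsion. -/
theorem torsion_of_forall_hom {A : Type*} [AddCommGroup A] (a : A)
    (h : ∀ l : A →+ ℚ, l a = 0) : ∃ n : ℕ, 0 < n ∧ n • a = 0 := by
  have h1 : (1 : ℚ) ⊗ₜ[ℤ] a = 0 := by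
    by_contra hne
    obtain ⟨l, hl⟩ : ∃ l : Module.Dual ℚ (ℚ ⊗[ℤ] A), l ((1 : ℚ) ⊗ₜ[ℤ] a) ≠ 0 := by
      by_contra hcon
      push Not at hcon
      exact hne ((Module.forall_dual_apply_eq_zero_iff ℚ _).1 hcon)
    exact hl (h (l.toAddMonoidHom.comp ((TensorProduct.mk ℤ ℚ A 1).toAddMonoidHom)))
  have h2 : IsLocalizedModule (nonZeroDivisors ℤ) (TensorProduct.mk ℤ ℚ A 1) :=
    (isLocalizedModule_iff_isBaseChange (nonZeroDivisors ℤ) ℚ _).2
      (TensorProduct.isBaseChange ℤ A ℚ)
  obtain ⟨c, hc⟩ := (IsLocalizedModule.eq_zero_iff (nonZeroDivisors ℤ)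
    (TensorProduct.mk ℤ ℚ A 1)).1 h1
  have hc0 : (c : ℤ) ≠ 0 := nonZeroDivisors.coe_ne_zero c
  refine ⟨(c : ℤ).natAbs, Int.natAbs_pos.2 hc0, ?_⟩
  have hc' : (c : ℤ) • a = 0 := hc
  rcases Int.natAbs_eq (c : ℤ) with h3 | h3
  · rw [h3, natCast_zsmul] at hc'
    exact hc'
  · rw [h3, neg_smul, natCast_zsmul, neg_eq_zero] at hc'
    exact hc'

/-- If all rational Steinberg functionals in three variables vanish then `K_3^M(F)` is
torsion. -/
theorem KM3_torsion (h : ∀ f : F → F → F → ℚ, IsStein3 f → ∀ x y z : F, x ≠ 0 → y ≠ 0 →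
    z ≠ 0 → f x y z = 0) (α : KM3 F) : ∃ n : ℕ, 0 < n ∧ n • α = 0 := by
  apply torsion_of_forall_hom
  intro l
  obtain ⟨f, hf, hfl⟩ := isStein3_of_hom l
  have hs : ∀ a b c : Fˣ, l (symb a b c) = 0 := by
    intro a b c
    rw [← hfl]
    exact h f hf a b c a.ne_zero b.ne_zero c.ne_zero
  induction α using KM3_induction with
  | h0 => exact map_zero l
  | hs a b c => exact hs a b c
  | hadd x y hx hy => rw [map_add, hx, hy, add_zero]

/-- Conversely, a Steinberg functional is a homomorphism on `K_3^M(F)`. -/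
theorem exists_hom {V : Type*} [AddCommGroup V] {f : F → F → F → V} (hf : IsStein3 f) :
    ∃ l : KM3 F →+ V, ∀ a b c : Fˣ, l (symb a b c) = f a b c := by
  let g : Additive Fˣ → Additive Fˣ →+ Additive Fˣ →+ V := fun a =>
    { toFun := fun b =>
        { toFun := fun c => f (a.toMul : F) (b.toMul : F) (c.toMul : F)
          map_zero' := hf.one3 _ _ a.toMul.ne_zero b.toMul.ne_zero
          map_add' := fun c c' => by
            simpa using hf.mul3 _ _ _ _ a.toMul.ne_zero b.toMul.ne_zero c.toMul.ne_zero
              c'.toMul.ne_zero }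
      map_zero' := by
        refine AddMonoidHom.ext fun c => ?_
        exact hf.one2 _ _ a.toMul.ne_zero c.toMul.ne_zero
      map_add' := fun b b' => by
        refine AddMonoidHom.ext fun c => ?_
        simpa using hf.mul2 _ _ _ _ a.toMul.ne_zero b.toMul.ne_zero b'.toMul.ne_zero
          c.toMul.ne_zero }
  let g1 : Additive Fˣ →ₗ[ℤ] (Additive Fˣ ⊗[ℤ] Additive Fˣ) →ₗ[ℤ] V :=
    (AddMonoidHom.toIntLinearMap
      { toFun := fun a => TensorProduct.lift
          ((AddMonoidHom.toIntLinearMap
            { toFun := fun b => (g a b).toIntLinearMap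
              map_zero' := by
                ext c
                simp
              map_add' := fun b b' => by
                ext c
                simp } : Additive Fˣ →ₗ[ℤ] Additive Fˣ →ₗ[ℤ] V))
        map_zero' := by
          apply TensorProduct.ext'
          intro b c
          exact hf.one1 _ _ b.toMul.ne_zero c.toMul.ne_zero
        map_add' := fun a a' => by
          apply TensorProduct.ext'
          intro b c
          exact hf.mul1 _ _ _ _ a.toMul.ne_zero a'.toMul.ne_zero b.toMul.ne_zero
            c.toMul.ne_zero })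
  have hg : ∀ a b c : Fˣ, (TensorProduct.lift g1) (tens a b c) = f a b c := by
    intro a b c
    rfl
  refine ⟨QuotientAddGroup.lift _ (TensorProduct.lift g1).toAddMonoidHom ?_, ?_⟩
  · rw [steinbergRel, AddSubgroup.closure_le]
    rintro t ⟨a, b, c, hab, rfl | rfl⟩
    · have h1 : (1 : F) - a = b := by rw [← hab]; ring
      have h2 := hf.st12 (a : F) (c : F) a.ne_zero (by rw [h1]; exact b.ne_zero) c.ne_zero
      rw [h1, ← hg] at h2
      exact h2
    · have h1 : (1 : F) - a = b := by rw [← hab]; ring
      have h2 := hf.st23 (a : F) (c : F) a.ne_zero (by rw [h1]; exact b.ne_zero) c.ne_zero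
      rw [h1, ← hg] at h2
      exact h2
  · intro a b c
    exact hg a b c

/-- If `K_3^M(F)` is torsion, all Steinberg functionals with values in a rational vector space
vanish. -/
theorem stein3_zero {V : Type*} [AddCommGroup V] [Module ℚ V]
    (h : ∀ a b c : Fˣ, ∃ n : ℕ, 0 < n ∧ n • symb a b c = 0) {f : F → F → F → V}
    (hf : IsStein3 f) (x y z : F) (hx : x ≠ 0) (hy : y ≠ 0) (hz : z ≠ 0) : f x y z = 0 := by
  obtain ⟨l, hl⟩ := exists_hom hf
  obtain ⟨n, hn, hn0⟩ := h (Units.mk0 x hx) (Units.mk0 y hy) (Units.mk0 z hz)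
  have h1 := congrArg l hn0
  rw [map_nsmul, map_zero, hl] at h1
  have h2 : ((n : ℚ)) • f x y z = 0 := by
    rw [Nat.cast_smul_eq_nsmul]
    exact h1
  exact (smul_eq_zero.1 h2).resolve_left (by exact_mod_cast hn.ne')

end

end Pool.Agent.K3
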