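import Pool.Agent.K3.EMulti
import Pool.Agent.K3.EMilnor

/-!
K3 project, block E: final form.
-/

namespace Pool.Agent.K3

/-- Let `L` be a finite Galois extension of `F₀` whose Galois group has exponent two.  If all
symbols in `K_3^M(K)` are torsion for every intermediate field `K` of degree at most two over
`F₀`, then `K_3^M(L)` is torsion. -/
theorem multiquadratic_torsion {F₀ : Type*} [Field F₀] {L : Type*} [Field L] [Algebra F₀ L]
    [FiniteDimensional F₀ L] [IsGalois F₀ L] (hL : ∀ σ : L ≃ₐ[F₀] L, σ * σ = 1)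
    (hquad : ∀ K : IntermediateField F₀ L, Module.finrank F₀ K ≤ 2 →
      ∀ a b c : Kˣ, ∃ n : ℕ, 0 < n ∧ n • symb a b c = 0) (α : KM3 L) :
    ∃ n : ℕ, 0 < n ∧ n • α = 0 := by
  apply KM3_torsion
  intro f hf x y z hx hy hz
  exact multiquadratic hL (fun K hK f hf x y z hx hy hz => stein3_zero (hquad K hK) hf x y z
    hx hy hz) f hf x y z hx hy hz

/-- The same with the hypothesis for all extensions of degree at most two (in the universe of
`L`). -/
theorem multiquadratic_torsion' {F₀ : Type*} [Field F₀] {L : Type*} [Field L] [Algebra F₀ L]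
    [FiniteDimensional F₀ L] [IsGalois F₀ L] (hL : ∀ σ : L ≃ₐ[F₀] L, σ * σ = 1)
    (hquad : ∀ K : IntermediateField F₀ L, Module.finrank F₀ K ≤ 2 →
      ∀ f : K → K → K → ℚ, IsStein3 f → ∀ x y z : K, x ≠ 0 → y ≠ 0 → z ≠ 0 → f x y z = 0)
    (α : KM3 L) : ∃ n : ℕ, 0 < n ∧ n • α = 0 :=
  KM3_torsion (fun f hf x y z hx hy hz => multiquadratic hL hquad f hf x y z hx hy hz) α

end Pool.Agent.K3
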