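import Pool.Agent.K3.EStein

/-!
K3 project, block E.  Multiquadratic extensions: if every Steinberg functional in three variables
vanishes on every extension of degree at most two of `F0`, then it vanishes on every finite Galois
extension of `F0` whose Galois group has exponent two.
-/

namespace Pool.Agent.K3

open scoped Pointwise

namespace IsStein3

variable {F V : Type*} [Field F] [AddCommGroup V] {f : F → F → F → V}

/-- composition with a ring homomorphism. -/
theorem comp {F' : Type*} [Field F'] (hf : IsStein3 f) (σ : F' →+* F) :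
    IsStein3 (fun x y z => f (σ x) (σ y) (σ z)) where
  mul1 x x' y z hx hx' hy hz := by
    simpa using hf.mul1 (σ x) (σ x') (σ y) (σ z) (by simpa) (by simpa) (by simpa) (by simpa)
  mul2 x y y' z hx hy hy' hz := by
    simpa using hf.mul2 (σ x) (σ y) (σ y') (σ z) (by simpa) (by simpa) (by simpa) (by simpa)
  mul3 x y z z' hx hy hz hz' := by
    simpa using hf.mul3 (σ x) (σ y) (σ z) (σ z') (by simpa) (by simpa) (by simpa) (by simpa)
  st12 x z hx hx1 hz := by
    have h1 : (1 : F) - σ x ≠ 0 := by
      rw [← map_one σ, ← map_sub]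
      exact (map_ne_zero σ).2 hx1
    have h := hf.st12 (σ x) (σ z) (by simpa) h1 (by simpa)
    simpa using h
  st23 x z hx hx1 hz := by
    have h1 : (1 : F) - σ x ≠ 0 := by
      rw [← map_one σ, ← map_sub]
      exact (map_ne_zero σ).2 hx1
    have h := hf.st23 (σ x) (σ z) (by simpa) h1 (by simpa)
    simpa using h

theorem add (hf : IsStein3 f) {g : F → F → F → V} (hg : IsStein3 g) :
    IsStein3 (fun x y z => f x y z + g x y z) where
  mul1 x x' y z hx hx' hy hz := by
    simp only [hf.mul1 x x' y z hx hx' hy hz, hg.mul1 x x' y z hx hx' hy hz]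
    abel
  mul2 x y y' z hx hy hy' hz := by
    simp only [hf.mul2 x y y' z hx hy hy' hz, hg.mul2 x y y' z hx hy hy' hz]
    abel
  mul3 x y z z' hx hy hz hz' := by
    simp only [hf.mul3 x y z z' hx hy hz hz', hg.mul3 x y z z' hx hy hz hz']
    abel
  st12 x z hx hx1 hz := by
    simp only [hf.st12 x z hx hx1 hz, hg.st12 x z hx hx1 hz, add_zero]
  st23 x z hx hx1 hz := by
    simp only [hf.st23 x z hx hx1 hz, hg.st23 x z hx hx1 hz, add_zero]

theorem neg (hf : IsStein3 f) : IsStein3 (fun x y z => - f x y z) where
  mul1 x x' y z hx hx' hy hz := by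
    simp only [hf.mul1 x x' y z hx hx' hy hz]
    abel
  mul2 x y y' z hx hy hy' hz := by
    simp only [hf.mul2 x y y' z hx hy hy' hz]
    abel
  mul3 x y z z' hx hy hz hz' := by
    simp only [hf.mul3 x y z z' hx hy hz hz']
    abel
  st12 x z hx hx1 hz := by
    simp only [hf.st12 x z hx hx1 hz, neg_zero]
  st23 x z hx hx1 hz := by
    simp only [hf.st23 x z hx hx1 hz, neg_zero]

end IsStein3

section action

variable {F V G : Type*} [Field F] [AddCommGroup V] [Module ℚ V] [Group G]
  [MulSemiringAction G F]

/-- The functional `f` composed with `g`. -/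
def twist (g : G) (f : F → F → F → V) : F → F → F → V := fun x y z => f (g • x) (g • y) (g • z)

omit [Module ℚ V] in
theorem twist_stein (g : G) {f : F → F → F → V} (hf : IsStein3 f) : IsStein3 (twist g f) := by
  have h := hf.comp (MulSemiringAction.toRingHom G F g)
  exact h

/-- The elements fixed by all elements of `S`. -/
def fixS (S : Set G) : Subfield F where
  carrier := {x | ∀ g ∈ S, g • x = x}
  mul_mem' := by
    intro a b ha hb g hg
    rw [smul_mul', ha g hg, hb g hg]
  one_mem' := by
    intro g _
    exact smul_one g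
  add_mem' := by
    intro a b ha hb g hg
    rw [smul_add, ha g hg, hb g hg]
  zero_mem' := by
    intro g _
    exact smul_zero g
  neg_mem' := by
    intro a ha g hg
    rw [smul_neg, ha g hg]
  inv_mem' := by
    intro a ha g hg
    rw [smul_inv'', ha g hg]

theorem mem_fixS {S : Set G} {x : F} : x ∈ (fixS S : Subfield F) ↔ ∀ g ∈ S, g • x = x := Iff.rfl

/-- An invariant functional which vanishes on the fixed field of a finite set of commuting
involutions vanishes. -/
theorem invariant_zero (hG : ∀ g : G, g * g = 1) {f : F → F → F → V} (hf : IsStein3 f)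
    (S : Finset G) (hinv : ∀ g ∈ S, ∀ x y z : F, x ≠ 0 → y ≠ 0 → z ≠ 0 →
      f (g • x) (g • y) (g • z) = f x y z)
    (hfix : ∀ x ∈ (fixS (S : Set G) : Subfield F), ∀ y ∈ (fixS (S : Set G) : Subfield F),
      ∀ z ∈ (fixS (S : Set G) : Subfield F), x ≠ 0 → y ≠ 0 → z ≠ 0 → f x y z = 0) :
    ∀ x y z : F, x ≠ 0 → y ≠ 0 → z ≠ 0 → f x y z = 0 := by
  classical
  have hcomm : ∀ g h : G, g * h = h * g := by
    intro g h
    have hinv : ∀ a : G, a⁻¹ = a := fun a => inv_eq_of_mul_eq_one_left (hG a)
    calc g * h = (g * h)⁻¹ := (hinv _).symm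
      _ = h⁻¹ * g⁻¹ := mul_inv_rev g h
      _ = h * g := by rw [hinv, hinv]
  induction S using Finset.induction_on with
  | empty =>
    intro x y z hx hy hz
    exact hfix x (by intro g hg; simp at hg) y (by intro g hg; simp at hg) z
      (by intro g hg; simp at hg) hx hy hz
  | insert h S hhS ih =>
    refine ih (fun g hg => hinv g (Finset.mem_insert_of_mem hg)) ?_
    intro x hx y hy z hz hx0 hy0 hz0
    refine hf.quadratic (fixS (S : Set G) : Subfield F) (MulSemiringAction.toRingHom G F h)
      ?_ ?_ ?_ ?_ hx hy hz hx0 hy0 hz0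
    · intro a ha g hg
      simp only [MulSemiringAction.toRingHom_apply]
      rw [smul_smul, hcomm, ← smul_smul, ha g hg]
    · intro a _
      simp only [MulSemiringAction.toRingHom_apply]
      rw [smul_smul, hG, one_smul]
    · intro a _ b _ c _ ha0 hb0 hc0
      exact hinv h (Finset.mem_insert_self h S) a b c ha0 hb0 hc0
    · intro a ha b hb c hc hsa hsb hsc ha0 hb0 hc0
      have key : ∀ u : F, u ∈ (fixS (S : Set G) : Subfield F) →
          (MulSemiringAction.toRingHom G F h) u = u →
          u ∈ (fixS ((insert h S : Finset G) : Set G) : Subfield F) := by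
        intro u hu hhu g hg
        rcases Finset.mem_insert.1 (Finset.mem_coe.1 hg) with rfl | hg'
        · exact hhu
        · exact hu g hg'
      exact hfix a (key a ha hsa) b (key b hb hsb) c (key c hc hsc) ha0 hb0 hc0

/-- The functionals considered: Steinberg, zero on the fixed field of every subgroup of index at
most two. -/
def Good2 (G : Type*) [Group G] [MulSemiringAction G F] (f : F → F → F → V) : Prop :=
  IsStein3 f ∧ ∀ H : Subgroup G, H.index ≤ 2 → H.index ≠ 0 → ∀ x y z : F,
    x ∈ (fixS (H : Set G) : Subfield F) → y ∈ (fixS (H : Set G) : Subfield F) →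
    z ∈ (fixS (H : Set G) : Subfield F) → x ≠ 0 → y ≠ 0 → z ≠ 0 → f x y z = 0

/-- `f` is semi-invariant under `g`. -/
def Semi (g : G) (f : F → F → F → V) : Prop :=
  (∀ x y z : F, x ≠ 0 → y ≠ 0 → z ≠ 0 → f (g • x) (g • y) (g • z) = f x y z) ∨
  (∀ x y z : F, x ≠ 0 → y ≠ 0 → z ≠ 0 → f (g • x) (g • y) (g • z) = - f x y z)

theorem semi_zero [Finite G] (hG : ∀ g : G, g * g = 1) {f : F → F → F → V} (hf : Good2 G f)
    (hs : ∀ g : G, Semi g f) : ∀ x y z : F, x ≠ 0 → y ≠ 0 → z ≠ 0 → f x y z = 0 := by
  classical
  have hfin := Fintype.ofFinite G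
  -- the stabiliser
  let H : Subgroup G :=
    { carrier := {g | ∀ x y z : F, x ≠ 0 → y ≠ 0 → z ≠ 0 →
        f (g • x) (g • y) (g • z) = f x y z}
      mul_mem' := by
        intro a b ha hb x y z hx hy hz
        rw [← smul_smul, ← smul_smul, ← smul_smul,
          ha _ _ _ ((smul_ne_zero_iff_ne b).2 hx) ((smul_ne_zero_iff_ne b).2 hy)
            ((smul_ne_zero_iff_ne b).2 hz)]
        exact hb x y z hx hy hz
      one_mem' := by
        intro x y z _ _ _
        simp only [one_smul]
      inv_mem' := by
        intro a ha x y z hx hy hz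
        have h := ha (a⁻¹ • x) (a⁻¹ • y) (a⁻¹ • z) ((smul_ne_zero_iff_ne _).2 hx)
          ((smul_ne_zero_iff_ne _).2 hy) ((smul_ne_zero_iff_ne _).2 hz)
        simpa using h.symm }
  have hHmem : ∀ g : G, g ∈ H ↔ ∀ x y z : F, x ≠ 0 → y ≠ 0 → z ≠ 0 →
      f (g • x) (g • y) (g • z) = f x y z := fun g => Iff.rfl
  have hidx : H.index ≤ 2 := by
    by_cases htop : H = ⊤
    · rw [htop, Subgroup.index_top]
      norm_num
    · obtain ⟨a, ha⟩ : ∃ a : G, a ∉ H := by
        by_contra hcon
        push Not at hcon
        exact htop ((Subgroup.eq_top_iff' H).2 hcon)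
      apply le_of_eq
      rw [Subgroup.index_eq_two_iff]
      refine ⟨a, fun b => ?_⟩
      have hneg : ∀ g : G, g ∉ H → ∀ x y z : F, x ≠ 0 → y ≠ 0 → z ≠ 0 →
          f (g • x) (g • y) (g • z) = - f x y z := by
        intro g hg
        rcases hs g with h | h
        · exact absurd ((hHmem g).2 h) hg
        · exact h
      by_cases hb : b ∈ H
      · right
        refine ⟨hb, fun hba => ha ?_⟩
        exact (Subgroup.mul_mem_cancel_left H hb).1 hba
      · left
        refine ⟨?_, hb⟩
        rw [hHmem]
        intro x y z hx hy hz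
        rw [← smul_smul, ← smul_smul, ← smul_smul,
          hneg b hb _ _ _ ((smul_ne_zero_iff_ne a).2 hx) ((smul_ne_zero_iff_ne a).2 hy)
            ((smul_ne_zero_iff_ne a).2 hz), hneg a ha x y z hx hy hz, neg_neg]
  have hidx0 : H.index ≠ 0 := Subgroup.index_ne_zero_of_finite
  refine invariant_zero hG hf.1 (Finset.univ.filter (fun g => g ∈ H)) ?_ ?_
  · intro g hg
    exact (hHmem g).1 (Finset.mem_filter.1 hg).2
  · have hset : ((Finset.univ.filter (fun g => g ∈ H) : Finset G) : Set G) = (H : Set G) := by
      ext g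
      simp
    rw [hset]
    intro x hx y hy z hz hx0 hy0 hz0
    exact hf.2 H hidx hidx0 x y z hx hy hz hx0 hy0 hz0

omit [Module ℚ V] in
theorem good_twist (hG : ∀ g : G, g * g = 1) (g : G) {f : F → F → F → V} (hf : Good2 G f) :
    Good2 G (twist g f) := by
  have hcomm : ∀ g h : G, g * h = h * g := by
    intro g h
    have hinv : ∀ a : G, a⁻¹ = a := fun a => inv_eq_of_mul_eq_one_left (hG a)
    calc g * h = (g * h)⁻¹ := (hinv _).symm
      _ = h⁻¹ * g⁻¹ := mul_inv_rev g h
      _ = h * g := by rw [hinv, hinv]
  refine ⟨twist_stein g hf.1, ?_⟩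
  intro H hH hH0 x y z hx hy hz hx0 hy0 hz0
  have key : ∀ u : F, u ∈ (fixS (H : Set G) : Subfield F) →
      g • u ∈ (fixS (H : Set G) : Subfield F) := by
    intro u hu a ha
    rw [smul_smul, hcomm, ← smul_smul, hu a ha]
  exact hf.2 H hH hH0 _ _ _ (key x hx) (key y hy) (key z hz) ((smul_ne_zero_iff_ne g).2 hx0)
    ((smul_ne_zero_iff_ne g).2 hy0) ((smul_ne_zero_iff_ne g).2 hz0)

omit [Module ℚ V] in
theorem good_add {f g : F → F → F → V} (hf : Good2 G f) (hg : Good2 G g) :
    Good2 G (fun x y z => f x y z + g x y z) := by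
  refine ⟨hf.1.add hg.1, ?_⟩
  intro H hH hH0 x y z hx hy hz hx0 hy0 hz0
  simp only [hf.2 H hH hH0 x y z hx hy hz hx0 hy0 hz0, hg.2 H hH hH0 x y z hx hy hz hx0 hy0 hz0,
    add_zero]

omit [Module ℚ V] in
theorem good_neg {f : F → F → F → V} (hf : Good2 G f) :
    Good2 G (fun x y z => - f x y z) := by
  refine ⟨hf.1.neg, ?_⟩
  intro H hH hH0 x y z hx hy hz hx0 hy0 hz0
  simp only [hf.2 H hH hH0 x y z hx hy hz hx0 hy0 hz0, neg_zero]

omit [Module ℚ V] in
theorem semi_twist (hG : ∀ g : G, g * g = 1) (g h : G) {f : F → F → F → V} (hs : Semi g f) :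
    Semi g (twist h f) := by
  have hcomm : ∀ g h : G, g * h = h * g := by
    intro g h
    have hinv : ∀ a : G, a⁻¹ = a := fun a => inv_eq_of_mul_eq_one_left (hG a)
    calc g * h = (g * h)⁻¹ := (hinv _).symm
      _ = h⁻¹ * g⁻¹ := mul_inv_rev g h
      _ = h * g := by rw [hinv, hinv]
  rcases hs with hs | hs
  · left
    intro x y z hx hy hz
    simp only [twist]
    rw [smul_smul h g x, smul_smul h g y, smul_smul h g z, hcomm h g, ← smul_smul, ← smul_smul,
      ← smul_smul]
    exact hs _ _ _ ((smul_ne_zero_iff_ne h).2 hx) ((smul_ne_zero_iff_ne h).2 hy)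
      ((smul_ne_zero_iff_ne h).2 hz)
  · right
    intro x y z hx hy hz
    simp only [twist]
    rw [smul_smul h g x, smul_smul h g y, smul_smul h g z, hcomm h g, ← smul_smul, ← smul_smul,
      ← smul_smul]
    exact hs _ _ _ ((smul_ne_zero_iff_ne h).2 hx) ((smul_ne_zero_iff_ne h).2 hy)
      ((smul_ne_zero_iff_ne h).2 hz)

/-- The character decomposition, one involution at a time. -/
theorem good_zero_aux [Finite G] (hG : ∀ g : G, g * g = 1) (T : Finset G) :
    ∀ f : F → F → F → V, Good2 G f → (∀ g : G, g ∉ T → Semi g f) →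
      ∀ x y z : F, x ≠ 0 → y ≠ 0 → z ≠ 0 → f x y z = 0 := by
  classical
  induction T using Finset.induction_on with
  | empty =>
    intro f hf hs
    exact semi_zero hG hf (fun g => hs g (Finset.notMem_empty g))
  | insert h T hhT ih =>
    intro f hf hs x y z hx hy hz
    have hp : Good2 G (fun x y z => f x y z + twist h f x y z) :=
      good_add hf (good_twist hG h hf)
    have hm : Good2 G (fun x y z => f x y z + - twist h f x y z) :=
      good_add hf (good_neg (good_twist hG h hf))
    have hhh : ∀ u : F, h • h • u = u := by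
      intro u
      rw [smul_smul, hG, one_smul]
    have hsp : ∀ g : G, g ∉ T → Semi g (fun x y z => f x y z + twist h f x y z) := by
      intro g hg
      by_cases hgh : g = h
      · left
        intro x y z hx hy hz
        simp only [twist, hgh, hhh]
        exact add_comm _ _
      · have hg' : g ∉ insert h T := by
          rw [Finset.mem_insert]
          push Not
          exact ⟨hgh, hg⟩
        have hst := semi_twist hG g h (hs g hg')
        have hsf := hs g hg'
        by_cases hboth : (∀ x y z : F, x ≠ 0 → y ≠ 0 → z ≠ 0 →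
            f (g • x) (g • y) (g • z) = f x y z)
        · left
          intro x y z hx hy hz
          have h2 := hboth (h • x) (h • y) (h • z) ((smul_ne_zero_iff_ne h).2 hx)
            ((smul_ne_zero_iff_ne h).2 hy) ((smul_ne_zero_iff_ne h).2 hz)
          have h3 : ∀ u : F, h • g • u = g • h • u := by
            intro u
            rw [smul_smul, smul_smul]
            congr 1
            have hinv : ∀ a : G, a⁻¹ = a := fun a => inv_eq_of_mul_eq_one_left (hG a)
            calc h * g = (h * g)⁻¹ := (hinv _).symm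
              _ = g⁻¹ * h⁻¹ := mul_inv_rev h g
              _ = g * h := by rw [hinv, hinv]
          simp only [twist, h3, hboth x y z hx hy hz, h2]
        · right
          have hneg : ∀ x y z : F, x ≠ 0 → y ≠ 0 → z ≠ 0 →
              f (g • x) (g • y) (g • z) = - f x y z := by
            rcases hsf with h1 | h1
            · exact absurd h1 hboth
            · exact h1
          intro x y z hx hy hz
          have h2 := hneg (h • x) (h • y) (h • z) ((smul_ne_zero_iff_ne h).2 hx)
            ((smul_ne_zero_iff_ne h).2 hy) ((smul_ne_zero_iff_ne h).2 hz)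
          have h3 : ∀ u : F, h • g • u = g • h • u := by
            intro u
            rw [smul_smul, smul_smul]
            congr 1
            have hinv : ∀ a : G, a⁻¹ = a := fun a => inv_eq_of_mul_eq_one_left (hG a)
            calc h * g = (h * g)⁻¹ := (hinv _).symm
              _ = g⁻¹ * h⁻¹ := mul_inv_rev h g
              _ = g * h := by rw [hinv, hinv]
          simp only [twist, h3, hneg x y z hx hy hz, h2]
          abel
    have hsm : ∀ g : G, g ∉ T → Semi g (fun x y z => f x y z + - twist h f x y z) := by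
      intro g hg
      by_cases hgh : g = h
      · right
        intro x y z hx hy hz
        simp only [twist, hgh, hhh]
        abel
      · have hg' : g ∉ insert h T := by
          rw [Finset.mem_insert]
          push Not
          exact ⟨hgh, hg⟩
        have hsf := hs g hg'
        have h3 : ∀ u : F, h • g • u = g • h • u := by
          intro u
          rw [smul_smul, smul_smul]
          congr 1
          have hinv : ∀ a : G, a⁻¹ = a := fun a => inv_eq_of_mul_eq_one_left (hG a)
          calc h * g = (h * g)⁻¹ := (hinv _).symm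
            _ = g⁻¹ * h⁻¹ := mul_inv_rev h g
            _ = g * h := by rw [hinv, hinv]
        rcases hsf with hpos | hneg
        · left
          intro x y z hx hy hz
          have h2 := hpos (h • x) (h • y) (h • z) ((smul_ne_zero_iff_ne h).2 hx)
            ((smul_ne_zero_iff_ne h).2 hy) ((smul_ne_zero_iff_ne h).2 hz)
          simp only [twist, h3, hpos x y z hx hy hz, h2]
        · right
          intro x y z hx hy hz
          have h2 := hneg (h • x) (h • y) (h • z) ((smul_ne_zero_iff_ne h).2 hx)
            ((smul_ne_zero_iff_ne h).2 hy) ((smul_ne_zero_iff_ne h).2 hz)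
          simp only [twist, h3, hneg x y z hx hy hz, h2]
          abel
    have h1 := ih _ hp hsp x y z hx hy hz
    have h2 := ih _ hm hsm x y z hx hy hz
    apply IsStein3.two_torsion
    have h3 : f x y z + f x y z = (f x y z + twist h f x y z) + (f x y z + - twist h f x y z) := by
      abel
    rw [h3, h1, h2, add_zero]

theorem good_zero [Finite G] (hG : ∀ g : G, g * g = 1) {f : F → F → F → V} (hf : Good2 G f) :
    ∀ x y z : F, x ≠ 0 → y ≠ 0 → z ≠ 0 → f x y z = 0 := by
  classical
  have hfin := Fintype.ofFinite G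
  exact good_zero_aux hG Finset.univ f hf (fun g hg => absurd (Finset.mem_univ g) hg)

end action

/-- **Multiquadratic extensions.** -/
theorem multiquadratic {F₀ : Type*} [Field F₀] {L : Type*} [Field L] [Algebra F₀ L]
    [FiniteDimensional F₀ L] [IsGalois F₀ L] (hL : ∀ σ : L ≃ₐ[F₀] L, σ * σ = 1)
    {V : Type*} [AddCommGroup V] [Module ℚ V]
    (hquad : ∀ K : IntermediateField F₀ L, Module.finrank F₀ K ≤ 2 →
      ∀ f : K → K → K → V, IsStein3 f → ∀ x y z : K, x ≠ 0 → y ≠ 0 → z ≠ 0 → f x y z = 0)
    (f : L → L → L → V) (hf : IsStein3 f) (x y z : L) (hx : x ≠ 0) (hy : y ≠ 0) (hz : z ≠ 0) :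
    f x y z = 0 := by
  refine good_zero (G := L ≃ₐ[F₀] L) hL ⟨hf, ?_⟩ x y z hx hy hz
  intro H hH hH0 a b c ha hb hc ha0 hb0 hc0
  have hdeg : Module.finrank F₀ (IntermediateField.fixedField H) ≤ 2 := by
    rw [IntermediateField.finrank_eq_fixingSubgroup_index,
      IntermediateField.fixingSubgroup_fixedField]
    exact hH
  have key : ∀ u : L, u ∈ (fixS (H : Set (L ≃ₐ[F₀] L)) : Subfield L) →
      u ∈ IntermediateField.fixedField H := by
    intro u hu
    rw [IntermediateField.mem_fixedField_iff]
    intro σ hσ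
    exact hu σ hσ
  have h := hquad (IntermediateField.fixedField H) hdeg
    (fun x y z => f (x : L) (y : L) (z : L))
    (hf.comp (algebraMap (IntermediateField.fixedField H) L)) ⟨a, key a ha⟩ ⟨b, key b hb⟩
    ⟨c, key c hc⟩ (fun h0 => ha0 (congrArg Subtype.val h0))
    (fun h0 => hb0 (congrArg Subtype.val h0)) (fun h0 => hc0 (congrArg Subtype.val h0))
  exact h

end Pool.Agent.K3
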