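import Mathlib

/-!
K3 project, block E.  Steinberg functionals in three variables on a field, with values in a
rational vector space, and the quadratic step.
-/

namespace Pool.Agent.K3

/-- `f` is a Steinberg functional in three variables on the field `F` (values at `0` are
irrelevant): it is additive in each variable on `F \ {0}` and vanishes on `(x, 1 - x, z)` and on
`(z, x, 1 - x)`. -/
structure IsStein3 {F V : Type*} [Field F] [AddCommGroup V] (f : F → F → F → V) : Prop where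
  mul1 : ∀ x x' y z : F, x ≠ 0 → x' ≠ 0 → y ≠ 0 → z ≠ 0 → f (x * x') y z = f x y z + f x' y z
  mul2 : ∀ x y y' z : F, x ≠ 0 → y ≠ 0 → y' ≠ 0 → z ≠ 0 → f x (y * y') z = f x y z + f x y' z
  mul3 : ∀ x y z z' : F, x ≠ 0 → y ≠ 0 → z ≠ 0 → z' ≠ 0 → f x y (z * z') = f x y z + f x y z'
  st12 : ∀ x z : F, x ≠ 0 → 1 - x ≠ 0 → z ≠ 0 → f x (1 - x) z = 0
  st23 : ∀ x z : F, x ≠ 0 → 1 - x ≠ 0 → z ≠ 0 → f z x (1 - x) = 0

namespace IsStein3

variable {F V : Type*} [Field F] [AddCommGroup V] {f : F → F → F → V}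

/-- reversing the order of the variables. -/
theorem rev (hf : IsStein3 f) : IsStein3 (fun x y z => f z y x) where
  mul1 x x' y z hx hx' hy hz := hf.mul3 z y x x' hz hy hx hx'
  mul2 x y y' z hx hy hy' hz := hf.mul2 z y y' x hz hy hy' hx
  mul3 x y z z' hx hy hz hz' := hf.mul1 z z' y x hz hz' hy hx
  st12 x z hx hx1 hz := by
    have h := hf.st23 (1 - x) z hx1 (by simpa using hx) hz
    simpa using h
  st23 x z hx hx1 hz := by
    have h := hf.st12 (1 - x) z hx1 (by simpa using hx) hz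
    simpa using h

theorem one1 (hf : IsStein3 f) (y z : F) (hy : y ≠ 0) (hz : z ≠ 0) : f 1 y z = 0 := by
  have h := hf.mul1 1 1 y z one_ne_zero one_ne_zero hy hz
  rw [one_mul] at h
  simpa using h

theorem one2 (hf : IsStein3 f) (x z : F) (hx : x ≠ 0) (hz : z ≠ 0) : f x 1 z = 0 := by
  have h := hf.mul2 x 1 1 z hx one_ne_zero one_ne_zero hz
  rw [one_mul] at h
  simpa using h

theorem one3 (hf : IsStein3 f) (x y : F) (hx : x ≠ 0) (hy : y ≠ 0) : f x y 1 = 0 :=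
  hf.rev.one1 y x hy hx

theorem inv1 (hf : IsStein3 f) (x y z : F) (hx : x ≠ 0) (hy : y ≠ 0) (hz : z ≠ 0) :
    f x⁻¹ y z = - f x y z := by
  have h := hf.mul1 x x⁻¹ y z hx (inv_ne_zero hx) hy hz
  rw [mul_inv_cancel₀ hx, hf.one1 y z hy hz] at h
  exact (neg_eq_of_add_eq_zero_right h.symm).symm

theorem inv2 (hf : IsStein3 f) (x y z : F) (hx : x ≠ 0) (hy : y ≠ 0) (hz : z ≠ 0) :
    f x y⁻¹ z = - f x y z := by
  have h := hf.mul2 x y y⁻¹ z hx hy (inv_ne_zero hy) hz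
  rw [mul_inv_cancel₀ hy, hf.one2 x z hx hz] at h
  exact (neg_eq_of_add_eq_zero_right h.symm).symm

theorem inv3 (hf : IsStein3 f) (x y z : F) (hx : x ≠ 0) (hy : y ≠ 0) (hz : z ≠ 0) :
    f x y z⁻¹ = - f x y z :=
  hf.rev.inv1 z y x hz hy hx

/-- `{x, -x, z} = 0`. -/
theorem neg_self12 (hf : IsStein3 f) (x z : F) (hx : x ≠ 0) (hz : z ≠ 0) : f x (-x) z = 0 := by
  by_cases h1 : x = 1
  · rw [h1]
    exact hf.one1 _ z (by simp) hz
  have hx1 : 1 - x ≠ 0 := fun h => h1 (sub_eq_zero.1 h).symm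
  have hxi : (1 : F) - x⁻¹ ≠ 0 := fun h => h1 (by
    have := (sub_eq_zero.1 h).symm
    rw [inv_eq_one] at this
    exact this)
  have h2 : -x = (1 - x) * (1 - x⁻¹)⁻¹ := by
    rw [eq_mul_inv_iff_mul_eq₀ hxi]
    field_simp
    ring
  rw [h2, hf.mul2 _ _ _ _ hx hx1 (inv_ne_zero hxi) hz, hf.st12 x z hx hx1 hz, zero_add,
    hf.inv2 _ _ _ hx hxi hz]
  have h3 := hf.st12 x⁻¹ z (inv_ne_zero hx) hxi hz
  rw [hf.inv1 _ _ _ hx hxi hz] at h3
  exact h3

variable [Module ℚ V]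

theorem two_torsion {v : V} (h : v + v = 0) : v = 0 := by
  have h2 : (2 : ℚ) • v = 0 := by
    rw [two_smul]
    exact h
  exact (smul_eq_zero.1 h2).resolve_left (by norm_num)

/-- `{x, -1, z}` is torsion. -/
theorem neg_one2 (hf : IsStein3 f) (x z : F) (hx : x ≠ 0) (hz : z ≠ 0) : f x (-1) z = 0 := by
  apply two_torsion
  rw [← hf.mul2 x (-1) (-1) z hx (by simp) (by simp) hz]
  simpa using hf.one2 x z hx hz

theorem self12 (hf : IsStein3 f) (x z : F) (hx : x ≠ 0) (hz : z ≠ 0) : f x x z = 0 := by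
  have h := hf.mul2 x (-1) (-x) z hx (by simp) (by simpa using hx) hz
  rw [neg_one_mul, neg_neg] at h
  rw [h, hf.neg_one2 x z hx hz, hf.neg_self12 x z hx hz, add_zero]

/-- antisymmetry in the first two variables. -/
theorem swap12 (hf : IsStein3 f) (x y z : F) (hx : x ≠ 0) (hy : y ≠ 0) (hz : z ≠ 0) :
    f x y z = - f y x z := by
  have hxy : x * y ≠ 0 := mul_ne_zero hx hy
  have h := hf.self12 (x * y) z hxy hz
  rw [hf.mul1 x y _ z hx hy hxy hz, hf.mul2 x x y z hx hx hy hz, hf.mul2 y x y z hy hx hy hz,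
    hf.self12 x z hx hz, hf.self12 y z hy hz, zero_add, add_zero] at h
  exact (neg_eq_of_add_eq_zero_left h).symm

/-- antisymmetry in the last two variables. -/
theorem swap23 (hf : IsStein3 f) (x y z : F) (hx : x ≠ 0) (hy : y ≠ 0) (hz : z ≠ 0) :
    f x y z = - f x z y :=
  hf.rev.swap12 z y x hz hy hx

theorem self23 (hf : IsStein3 f) (x z : F) (hx : x ≠ 0) (hz : z ≠ 0) : f z x x = 0 :=
  hf.rev.self12 x z hx hz

/-! ### the quadratic step -/

section quadratic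

variable (E : Subfield F) (σ : F →+* F)

/-- Relation between two elements of a quadratic extension. -/
theorem reduce (hf : IsStein3 f) (hE : ∀ x ∈ E, σ x ∈ E) (hσ : ∀ x ∈ E, σ (σ x) = x)
    {z : F} (hz : z ≠ 0)
    (h1 : ∀ x b, x ∈ E → b ∈ E → σ b = b → x ≠ 0 → b ≠ 0 → f x b z = 0)
    {x y : F} (hx : x ∈ E) (hy : y ∈ E) (hx0 : x ≠ 0) (hy0 : y ≠ 0) : f x y z = 0 := by
  have h1' : ∀ b x, x ∈ E → b ∈ E → σ b = b → x ≠ 0 → b ≠ 0 → f b x z = 0 := by
    intro b x hx hb hσb hx0 hb0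
    rw [hf.swap12 b x z hb0 hx0 hz, h1 x b hx hb hσb hx0 hb0, neg_zero]
  by_cases hsx : σ x = x
  · exact h1' x y hy hx hsx hy0 hx0
  by_cases hsy : σ y = y
  · exact h1 x y hx hy hsy hx0 hy0
  have hσx0 : σ x ≠ 0 := (map_ne_zero σ).2 hx0
  have hσy0 : σ y ≠ 0 := (map_ne_zero σ).2 hy0
  by_cases hD : x * σ y - y * σ x = 0
  · -- `y = c x` with `c` fixed
    have hD' : x * σ y = y * σ x := sub_eq_zero.1 hD
    have hc : y / x ∈ E := E.div_mem hy hx
    have hσc : σ (y / x) = y / x := by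
      rw [map_div₀, div_eq_div_iff hσx0 hx0, mul_comm (σ y) x, hD']
    have hc0 : y / x ≠ 0 := div_ne_zero hy0 hx0
    have h2 : y = x * (y / x) := by field_simp
    rw [h2, hf.mul2 x x _ z hx0 hx0 hc0 hz, hf.self12 x z hx0 hz, zero_add]
    exact h1 x _ hx hc hσc hx0 hc0
  · set D := x * σ y - y * σ x with hDdef
    have hDE : D ∈ E := E.sub_mem (E.mul_mem hx (hE y hy)) (E.mul_mem hy (hE x hx))
    have hσD : σ D = -D := by
      rw [hDdef, map_sub, map_mul, map_mul, hσ y hy, hσ x hx]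
      ring
    have ha0 : (σ y - y) / D ≠ 0 := div_ne_zero (sub_ne_zero.2 hsy) hD
    have hb0 : (x - σ x) / D ≠ 0 := div_ne_zero (sub_ne_zero.2 (Ne.symm hsx)) hD
    have haE : (σ y - y) / D ∈ E := E.div_mem (E.sub_mem (hE y hy) hy) hDE
    have hbE : (x - σ x) / D ∈ E := E.div_mem (E.sub_mem hx (hE x hx)) hDE
    have hσa : σ ((σ y - y) / D) = (σ y - y) / D := by
      rw [map_div₀, hσD, map_sub, hσ y hy, div_neg, ← neg_div, neg_sub]
    have hσb : σ ((x - σ x) / D) = (x - σ x) / D := by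
      rw [map_div₀, hσD, map_sub, hσ x hx, div_neg, ← neg_div, neg_sub]
    have hrel : 1 - (σ y - y) / D * x = (x - σ x) / D * y := by
      field_simp
      rw [hDdef]
      ring
    generalize (σ y - y) / D = a at ha0 haE hσa hrel
    generalize (x - σ x) / D = b at hb0 hbE hσb hrel
    have hax : a * x ≠ 0 := mul_ne_zero ha0 hx0
    have hby : b * y ≠ 0 := mul_ne_zero hb0 hy0
    have h3 := hf.st12 (a * x) z hax (by rw [hrel]; exact hby) hz
    rw [hrel, hf.mul1 a x _ z ha0 hx0 hby hz, hf.mul2 a b y z ha0 hb0 hy0 hz,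
      hf.mul2 x b y z hx0 hb0 hy0 hz, h1 a b haE hbE hσb ha0 hb0,
      h1' a y hy haE hσa hy0 ha0, h1 x b hx hbE hσb hx0 hb0] at h3
    simpa using h3

/-- **The quadratic step.**  Let `E` be a subfield, `σ` an involution of `E`, and let `f` be
`σ`-invariant on `E` and zero on the fixed field of `σ` in `E`.  Then `f` is zero on `E`. -/
theorem quadratic (hf : IsStein3 f) (hE : ∀ x ∈ E, σ x ∈ E) (hσ : ∀ x ∈ E, σ (σ x) = x)
    (hinv : ∀ x ∈ E, ∀ y ∈ E, ∀ z ∈ E, x ≠ 0 → y ≠ 0 → z ≠ 0 → f (σ x) (σ y) (σ z) = f x y z)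
    (hfix : ∀ x ∈ E, ∀ y ∈ E, ∀ z ∈ E, σ x = x → σ y = y → σ z = z → x ≠ 0 → y ≠ 0 → z ≠ 0 →
      f x y z = 0)
    {x y z : F} (hx : x ∈ E) (hy : y ∈ E) (hz : z ∈ E) (hx0 : x ≠ 0) (hy0 : y ≠ 0)
    (hz0 : z ≠ 0) : f x y z = 0 := by
  -- one free variable
  have h1 : ∀ x b c, x ∈ E → b ∈ E → c ∈ E → σ b = b → σ c = c → x ≠ 0 → b ≠ 0 → c ≠ 0 →
      f x b c = 0 := by
    intro x b c hx hb hc hσb hσc hx0 hb0 hc0
    have hσx0 : σ x ≠ 0 := (map_ne_zero σ).2 hx0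
    apply two_torsion
    have h2 := hinv x hx b hb c hc hx0 hb0 hc0
    rw [hσb, hσc] at h2
    have h3 : f x b c + f x b c = f x b c + f (σ x) b c := by rw [h2]
    rw [h3, ← hf.mul1 x (σ x) b c hx0 hσx0 hb0 hc0]
    exact hfix _ (E.mul_mem hx (hE x hx)) b hb c hc
      (by rw [map_mul, hσ x hx, mul_comm]) hσb hσc (mul_ne_zero hx0 hσx0) hb0 hc0
  -- two free variables
  have h2 : ∀ x y c, x ∈ E → y ∈ E → c ∈ E → σ c = c → x ≠ 0 → y ≠ 0 → c ≠ 0 →
      f x y c = 0 := by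
    intro x y c hx hy hc hσc hx0 hy0 hc0
    exact hf.reduce E σ hE hσ hc0 (fun x b hx hb hσb hx0 hb0 =>
      h1 x b c hx hb hc hσb hσc hx0 hb0 hc0) hx hy hx0 hy0
  refine hf.reduce E σ hE hσ hz0 ?_ hx hy hx0 hy0
  intro x b hx hb hσb hx0 hb0
  rw [hf.swap23 x b z hx0 hb0 hz0, h2 x z b hx hz hb hσb hx0 hz0 hb0, neg_zero]

end quadratic

end IsStein3

end Pool.Agent.K3
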