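import Pool.Agent.K3.MilnorVanish

/-!
K3 project: the functional form of Milnor's theorem on `K_2` of a rational function field. A
Steinberg functional on `K[X]` which vanishes on the constants is the sum of its residues.
-/

set_option autoImplicit false

open Polynomial UniqueFactorizationMonoid

namespace Pool.Agent.K3

open Pool.Agent.Harder (StR)

section
variable {K : Type} [Field K]

open Classical in
/-- the monic irreducible factors, with multiplicity. -/
noncomputable def mnf (u : K[X]) : Multiset K[X] := normalizedFactors u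

theorem mem_mnf {u p : K[X]} (hu : u ≠ 0) : p ∈ mnf u ↔ p.Monic ∧ Irreducible p ∧ p ∣ u := by
  classical
  unfold mnf
  rw [mem_normalizedFactors_iff' hu]
  constructor
  · rintro ⟨h1, h2, h3⟩
    exact ⟨(normalize_eq_self_iff_monic h1.ne_zero).1 h2, h1, h3⟩
  · rintro ⟨h1, h2, h3⟩
    exact ⟨h2, h1.normalize_eq_self, h3⟩

theorem mnf_mul {u v : K[X]} (hu : u ≠ 0) (hv : v ≠ 0) : mnf (u * v) = mnf u + mnf v := by
  classical
  unfold mnf
  exact normalizedFactors_mul hu hv

theorem mnf_C {c : K} (hc : c ≠ 0) : mnf (C c) = 0 := by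
  classical
  unfold mnf
  exact normalizedFactors_of_isUnit (isUnit_C.2 (isUnit_iff_ne_zero.2 hc))

theorem mnf_self {p : K[X]} (hp : p.Monic) (hi : Irreducible p) : mnf p = {p} := by
  classical
  unfold mnf
  rw [normalizedFactors_irreducible hi, hp.normalize_eq_self]

theorem mnf_neg {u : K[X]} (hu : u ≠ 0) : mnf (-u) = mnf u := by
  have h1 : -u = C (-1) * u := by
    rw [C_neg, C_1, neg_one_mul]
  have h0 : (-1 : K) ≠ 0 := neg_ne_zero.2 one_ne_zero
  rw [h1, mnf_mul (C_ne_zero.2 h0) hu, mnf_C h0, zero_add]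

theorem mnf_prod (u : K[X]) : C u.leadingCoeff * (mnf u).prod = u := by
  classical
  unfold mnf
  exact leadingCoeff_mul_prod_normalizedFactors u

theorem map_mnf (g : K[X] → ℝ) (hg : ∀ a b, a ≠ 0 → b ≠ 0 → g (a * b) = g a + g b) {u : K[X]}
    (hu : u ≠ 0) : g u = g (C u.leadingCoeff) + ((mnf u).map g).sum := by
  have hg1 : g 1 = 0 := by
    have h := hg 1 1 one_ne_zero one_ne_zero
    rw [one_mul] at h
    linarith
  have h1 : ∀ s : Multiset K[X], (∀ p ∈ s, p ≠ 0) → s.prod ≠ 0 ∧ g s.prod = (s.map g).sum := by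
    intro s
    induction s using Multiset.induction_on with
    | empty => intro _; exact ⟨by simp, by simpa using hg1⟩
    | cons a s ih =>
      intro hs
      obtain ⟨h2, h3⟩ := ih (fun p hp => hs p (Multiset.mem_cons_of_mem hp))
      have ha : a ≠ 0 := hs a (Multiset.mem_cons_self a s)
      rw [Multiset.prod_cons, Multiset.map_cons, Multiset.sum_cons, ← h3]
      exact ⟨mul_ne_zero ha h2, hg _ _ ha h2⟩
  obtain ⟨h2, h3⟩ := h1 (mnf u) (fun p hp => ((mem_mnf hu).1 hp).2.1.ne_zero)
  conv_lhs => rw [← mnf_prod u]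
  rw [hg _ _ (C_ne_zero.2 (leadingCoeff_ne_zero.2 hu)) h2, h3]

/-! ### the local functionals -/

/-- the order of vanishing. -/
noncomputable def vv (p a : K[X]) : ℕ := multiplicity p a

/-- the reduced polynomial. -/
noncomputable def redp (p a : K[X]) : K[X] := a / p ^ (vv p a)

theorem vv_redp {p a : K[X]} (hp : Irreducible p) (ha : a ≠ 0) :
    a = p ^ vv p a * redp p a ∧ ¬ p ∣ redp p a := by
  have hfin : FiniteMultiplicity p a := FiniteMultiplicity.of_not_isUnit hp.not_isUnit ha
  obtain ⟨c, hc, hc'⟩ := hfin.exists_eq_pow_mul_and_not_dvd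
  have hpn : p ^ vv p a ≠ 0 := pow_ne_zero _ hp.ne_zero
  have h1 : redp p a = c :=
    (congrArg (· / p ^ vv p a) hc).trans (mul_div_cancel_left₀ c hpn)
  rw [h1]
  exact ⟨hc, hc'⟩

theorem vv_eq {p a : K[X]} (hp : Irreducible p) (i : ℕ) (ha : ¬ p ∣ a) :
    vv p (p ^ i * a) = i ∧ redp p (p ^ i * a) = a := by
  have h1 : vv p (p ^ i * a) = i := by
    unfold vv
    apply multiplicity_eq_of_dvd_of_not_dvd (dvd_mul_right _ _)
    intro h
    rw [pow_succ] at h
    exact ha ((mul_dvd_mul_iff_left (pow_ne_zero i hp.ne_zero)).1 h)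
  refine ⟨h1, ?_⟩
  unfold redp
  rw [h1]
  exact mul_div_cancel_left₀ a (pow_ne_zero i hp.ne_zero)

theorem vv_of_not_dvd {p a : K[X]} (hp : Irreducible p) (ha : ¬ p ∣ a) :
    vv p a = 0 ∧ redp p a = a := by
  have h := vv_eq hp 0 ha
  rwa [pow_zero, one_mul] at h

theorem vv_self {p : K[X]} (hp : Irreducible p) : vv p p = 1 ∧ redp p p = 1 := by
  have h := vv_eq hp 1 (a := 1) (fun h => hp.not_isUnit (isUnit_of_dvd_one h))
  rwa [pow_one, mul_one] at h

theorem vv_mul {p a b : K[X]} (hp : Irreducible p) (ha : a ≠ 0) (hb : b ≠ 0) :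
    vv p (a * b) = vv p a + vv p b ∧ redp p (a * b) = redp p a * redp p b := by
  obtain ⟨h1, h2⟩ := vv_redp hp ha
  obtain ⟨h3, h4⟩ := vv_redp hp hb
  have h5 : a * b = p ^ (vv p a + vv p b) * (redp p a * redp p b) := by
    conv_lhs => rw [h1, h3]
    rw [pow_add]
    ring
  have h6 : ¬ p ∣ redp p a * redp p b := fun h0 => by
    rcases hp.prime.dvd_or_dvd h0 with h | h
    · exact h2 h
    · exact h4 h
  have h7 := vv_eq hp (vv p a + vv p b) h6
  rwa [← h5] at h7

/-- the functional given by the tame symbol at `p` and `ψ`. -/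
noncomputable def locD (p : K[X]) (ψ : K[X] → ℝ) (a b : K[X]) : ℝ :=
  (vv p a : ℝ) * ψ (redp p b) - (vv p b : ℝ) * ψ (redp p a)

/-- `ψ` is a homomorphism on the units modulo `p`. -/
structure ResHom (p : K[X]) (ψ : K[X] → ℝ) : Prop where
  mul : ∀ u v, ¬ p ∣ u → ¬ p ∣ v → ψ (u * v) = ψ u + ψ v
  congr : ∀ u v, p ∣ u - v → ψ u = ψ v

theorem ResHom.one {p : K[X]} {ψ : K[X] → ℝ} (hp : Irreducible p) (h : ResHom p ψ) :
    ψ 1 = 0 := by
  have h1 : ¬ p ∣ 1 := fun h => hp.not_isUnit (isUnit_of_dvd_one h)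
  have h2 := h.mul 1 1 h1 h1
  rw [one_mul] at h2
  linarith

theorem ResHom.neg {p : K[X]} {ψ : K[X] → ℝ} (hp : Irreducible p) (h : ResHom p ψ) {u : K[X]}
    (hu : ¬ p ∣ u) : ψ (-u) = ψ u := by
  have h1 : ¬ p ∣ (-1 : K[X]) := fun h0 => hp.not_isUnit (isUnit_of_dvd_unit h0 isUnit_one.neg)
  have h2 := h.mul (-1) (-1) h1 h1
  rw [neg_mul_neg, one_mul, h.one hp] at h2
  have h3 := h.mul (-1) u h1 hu
  rw [neg_one_mul] at h3
  linarith

theorem locD_self {p : K[X]} (hp : Irreducible p) {ψ : K[X] → ℝ} (_h : ResHom p ψ) {x : K[X]}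
    (hx : ¬ p ∣ x) : locD p ψ p x = ψ x := by
  unfold locD
  obtain ⟨h1, h2⟩ := vv_self hp
  obtain ⟨h3, h4⟩ := vv_of_not_dvd hp hx
  rw [h1, h2, h3, h4]
  push_cast
  ring

theorem locD_not_dvd {p : K[X]} (hp : Irreducible p) {ψ : K[X] → ℝ} {x y : K[X]}
    (hx : ¬ p ∣ x) (hy : ¬ p ∣ y) : locD p ψ x y = 0 := by
  unfold locD
  rw [(vv_of_not_dvd hp hx).1, (vv_of_not_dvd hp hy).1]
  push_cast
  ring

theorem locD_StR {p : K[X]} (hp : Irreducible p) {ψ : K[X] → ℝ} (h : ResHom p ψ) :
    StR (locD p ψ) := by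
  refine ⟨fun a b c ha hb hc => ?_, fun a b _ _ => ?_, fun a b c ha hb hc hs => ?_⟩
  · unfold locD
    obtain ⟨h1, h2⟩ := vv_mul hp ha hb
    rw [h1, h2, h.mul _ _ (vv_redp hp ha).2 (vv_redp hp hb).2]
    push_cast
    ring
  · unfold locD
    ring
  · -- the basic case: no common zero
    have key : ∀ x y z : K[X], x ≠ 0 → x + y + z = 0 → ¬ p ∣ y → ¬ p ∣ z →
        locD p ψ x y + locD p ψ y z + locD p ψ z x = 0 := by
      intro x y z hx hxyz hy hz
      obtain ⟨hy1, hy2⟩ := vv_of_not_dvd hp hy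
      obtain ⟨hz1, hz2⟩ := vv_of_not_dvd hp hz
      unfold locD
      rw [hy1, hy2, hz1, hz2]
      by_cases hxd : p ∣ x
      · have h1 : ψ z = ψ y := by
          rw [← h.neg hp hy]
          apply h.congr
          have : z - -y = -x := by linear_combination hxyz
          rw [this]
          exact (dvd_neg).2 hxd
        rw [h1]
        push_cast
        ring
      · obtain ⟨hx1, hx2⟩ := vv_of_not_dvd hp hxd
        rw [hx1]
        push_cast
        ring
    -- reduction: coprime case in all positions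
    have key2 : ∀ x y z : K[X], x ≠ 0 → y ≠ 0 → z ≠ 0 → x + y + z = 0 →
        ¬ (p ∣ x ∧ p ∣ y ∧ p ∣ z) →
        locD p ψ x y + locD p ψ y z + locD p ψ z x = 0 := by
      intro x y z hx hy hz hxyz hn
      by_cases h1 : p ∣ x
      · have h2 : ¬ p ∣ y := by
          intro h2
          apply hn
          refine ⟨h1, h2, ?_⟩
          have : z = -(x + y) := by linear_combination hxyz
          rw [this]
          exact (dvd_neg).2 (dvd_add h1 h2)
        have h3 : ¬ p ∣ z := by
          intro h3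
          apply h2
          have : y = -(x + z) := by linear_combination hxyz
          rw [this]
          exact (dvd_neg).2 (dvd_add h1 h3)
        exact key x y z hx hxyz h2 h3
      · by_cases h2 : p ∣ y
        · have h3 : ¬ p ∣ z := by
            intro h3
            apply h1
            have : x = -(y + z) := by linear_combination hxyz
            rw [this]
            exact (dvd_neg).2 (dvd_add h2 h3)
          have := key y z x hy (by linear_combination hxyz) h3 h1
          linarith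
        · have := key z x y hz (by linear_combination hxyz) h1 h2
          linarith
    -- the general case by induction on the common power
    have hscale : ∀ (n : ℕ) (x y : K[X]), x ≠ 0 → y ≠ 0 →
        locD p ψ (p ^ n * x) (p ^ n * y) =
          n * (ψ (redp p y) - ψ (redp p x)) + locD p ψ x y := by
      intro n x y hx hy
      obtain ⟨h1, h2⟩ := vv_redp hp hx
      obtain ⟨h3, h4⟩ := vv_redp hp hy
      have e1 : p ^ n * x = p ^ (n + vv p x) * redp p x := by
        conv_lhs => rw [h1]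
        rw [pow_add]; ring
      have e2 : p ^ n * y = p ^ (n + vv p y) * redp p y := by
        conv_lhs => rw [h3]
        rw [pow_add]; ring
      obtain ⟨h5, h6⟩ := vv_eq hp (n + vv p x) h2
      obtain ⟨h7, h8⟩ := vv_eq hp (n + vv p y) h4
      rw [← e1] at h5 h6
      rw [← e2] at h7 h8
      unfold locD
      rw [h5, h6, h7, h8]
      push_cast
      ring
    set n := min (vv p a) (min (vv p b) (vv p c)) with hn
    have hex : ∀ x : K[X], x ≠ 0 → n ≤ vv p x → ∃ x', x' ≠ 0 ∧ x = p ^ n * x' ∧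
        (vv p x = n → ¬ p ∣ x') := by
      intro x hx hnx
      obtain ⟨h1, h2⟩ := vv_redp hp hx
      refine ⟨p ^ (vv p x - n) * redp p x, ?_, ?_, ?_⟩
      · exact mul_ne_zero (pow_ne_zero _ hp.ne_zero) (fun h => h2 (h ▸ dvd_zero p))
      · conv_lhs => rw [h1]
        rw [← mul_assoc, ← pow_add]
        congr 2
        omega
      · intro h3
        rw [h3, Nat.sub_self, pow_zero, one_mul]
        exact h2
    obtain ⟨a', ha', hae, haf⟩ := hex a ha (by omega)
    obtain ⟨b', hb', hbe, hbf⟩ := hex b hb (by omega)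
    obtain ⟨c', hc', hce, hcf⟩ := hex c hc (by omega)
    have hs' : a' + b' + c' = 0 := by
      have : p ^ n * (a' + b' + c') = 0 := by
        rw [mul_add, mul_add, ← hae, ← hbe, ← hce, hs]
      exact (mul_eq_zero.1 this).resolve_left (pow_ne_zero _ hp.ne_zero)
    have h1 := key2 a' b' c' ha' hb' hc' hs' (by
      rintro ⟨h1, h2, h3⟩
      have : vv p a = n ∨ vv p b = n ∨ vv p c = n := by omega
      rcases this with h | h | h
      · exact haf h h1
      · exact hbf h h2
      · exact hcf h h3)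
    rw [hae, hbe, hce, hscale n a' b' ha' hb', hscale n b' c' hb' hc', hscale n c' a' hc' ha']
    linarith

/-! ### the residues -/

/-- the residues by recursion on the degree of the place. -/
noncomputable def psiN (φ : K[X] → K[X] → ℝ) : ℕ → K[X] → K[X] → ℝ
  | 0, _, _ => 0
  | n + 1, p, u => φ p (u %ₘ p) + ((mnf (u %ₘ p)).map (fun q => psiN φ n q p)).sum

/-- the residue of `φ` at `p`. -/
noncomputable def psi (φ : K[X] → K[X] → ℝ) (p u : K[X]) : ℝ := psiN φ p.natDegree p u

theorem irr_deg {p : K[X]} (hi : Irreducible p) : 0 < p.natDegree :=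
  Irreducible.natDegree_pos hi

theorem mod_deg {p : K[X]} (hm : p.Monic) (hi : Irreducible p) (u : K[X]) :
    (u %ₘ p).natDegree < p.natDegree :=
  natDegree_modByMonic_lt u hm (by rintro rfl; exact hi.not_isUnit isUnit_one)

theorem mod_ne_zero {p : K[X]} (hm : p.Monic) {u : K[X]} (hu : ¬ p ∣ u) : u %ₘ p ≠ 0 :=
  fun h => hu ((modByMonic_eq_zero_iff_dvd hm).1 h)

theorem mnf_deg {u q : K[X]} (hu : u ≠ 0) (hq : q ∈ mnf u) : q.natDegree ≤ u.natDegree :=
  natDegree_le_of_dvd ((mem_mnf hu).1 hq).2.2 hu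

theorem mnf_zero : mnf (0 : K[X]) = 0 := by
  classical
  unfold mnf
  exact normalizedFactors_zero

theorem mem_mnf_mod {p u q : K[X]} (hm : p.Monic) (hi : Irreducible p) (hq : q ∈ mnf (u %ₘ p)) :
    q.Monic ∧ Irreducible q ∧ q.natDegree < p.natDegree := by
  by_cases h0 : u %ₘ p = 0
  · rw [h0, mnf_zero] at hq
    exact absurd hq (Multiset.notMem_zero q)
  · have h1 := (mem_mnf h0).1 hq
    exact ⟨h1.1, h1.2.1, lt_of_le_of_lt (mnf_deg h0 hq) (mod_deg hm hi u)⟩

theorem psiN_succ (φ : K[X] → K[X] → ℝ) : ∀ (n : ℕ) (p : K[X]), p.Monic → Irreducible p →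
    p.natDegree ≤ n → ∀ u, psiN φ (n + 1) p u = psiN φ n p u := by
  intro n
  induction n with
  | zero =>
    intro p _ hi hn
    have := irr_deg hi
    omega
  | succ n ih =>
    intro p hm hi hn u
    show φ p (u %ₘ p) + ((mnf (u %ₘ p)).map (fun q => psiN φ (n + 1) q p)).sum =
      φ p (u %ₘ p) + ((mnf (u %ₘ p)).map (fun q => psiN φ n q p)).sum
    congr 2
    apply Multiset.map_congr rfl
    intro q hq
    obtain ⟨h1, h2, h3⟩ := mem_mnf_mod hm hi hq
    exact ih q h1 h2 (by omega) p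

theorem psiN_stable (φ : K[X] → K[X] → ℝ) (p : K[X]) (hm : p.Monic) (hi : Irreducible p)
    (n : ℕ) (hn : p.natDegree ≤ n) (u : K[X]) : psiN φ n p u = psi φ p u := by
  induction n, hn using Nat.le_induction with
  | base => rfl
  | succ n hn ih => rw [psiN_succ φ n p hm hi hn u, ih]

theorem psi_rec (φ : K[X] → K[X] → ℝ) {p : K[X]} (hm : p.Monic) (hi : Irreducible p)
    (u : K[X]) : psi φ p u =
      φ p (u %ₘ p) + ((mnf (u %ₘ p)).map (fun q => psi φ q p)).sum := by
  rw [← psiN_stable φ p hm hi (p.natDegree + 1) (Nat.le_succ _) u]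
  show φ p (u %ₘ p) + ((mnf (u %ₘ p)).map (fun q => psiN φ p.natDegree q p)).sum = _
  congr 2
  apply Multiset.map_congr rfl
  intro q hq
  obtain ⟨h1, h2, h3⟩ := mem_mnf_mod hm hi hq
  exact psiN_stable φ q h1 h2 _ h3.le p

theorem psi_congr (φ : K[X] → K[X] → ℝ) {p : K[X]} (hm : p.Monic) (hi : Irreducible p)
    (u v : K[X]) (h : p ∣ u - v) : psi φ p u = psi φ p v := by
  have h1 : u %ₘ p = v %ₘ p := by
    have h2 : (u - v) %ₘ p = 0 := (modByMonic_eq_zero_iff_dvd hm).2 h
    rw [sub_modByMonic] at h2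
    exact sub_eq_zero.1 h2
  rw [psi_rec φ hm hi, psi_rec φ hm hi, h1]

theorem psi_C (φ : K[X] → K[X] → ℝ) {p : K[X]} (hm : p.Monic) (hi : Irreducible p)
    {c : K} (hc : c ≠ 0) : psi φ p (C c) = φ p (C c) := by
  have h1 : (C c : K[X]) %ₘ p = C c := by
    rw [modByMonic_eq_self_iff hm]
    apply degree_lt_degree
    rw [natDegree_C]
    exact irr_deg hi
  rw [psi_rec φ hm hi, h1, mnf_C hc]
  simp

variable {φ : K[X] → K[X] → ℝ}

theorem StR_neg_one (hφ : StR φ) {a : K[X]} (ha : a ≠ 0) : φ (-1) a = 0 := by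
  apply hφ.torsion (-1) a 2 two_pos (by ring) ha

theorem StR_neg_left (hφ : StR φ) {a b : K[X]} (ha : a ≠ 0) (hb : b ≠ 0) :
    φ (-a) b = φ a b := by
  have h1 := hφ.mul_left (-1) a b (neg_ne_zero.2 one_ne_zero) ha hb
  rw [neg_one_mul, StR_neg_one hφ hb] at h1
  linarith

theorem StR_neg_right (hφ : StR φ) {a b : K[X]} (ha : a ≠ 0) (hb : b ≠ 0) :
    φ a (-b) = φ a b := by
  rw [hφ.anti a (-b) ha (neg_ne_zero.2 hb), StR_neg_left hφ hb ha, hφ.anti b a hb ha, neg_neg]

theorem not_dvd_of_ne {p q : K[X]} (hm : p.Monic) (hi : Irreducible p) (hm' : q.Monic)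
    (hi' : Irreducible q) (hne : p ≠ q) : ¬ p ∣ q := by
  intro h
  exact hne (eq_of_monic_of_associated hm hm' ((hi.dvd_irreducible_iff_associated hi').1 h))

theorem psi_pair (hφ : StR φ) {p q : K[X]} (hm : p.Monic) (hi : Irreducible p) (hm' : q.Monic)
    (hi' : Irreducible q) (hne : p ≠ q) : φ p q = psi φ p q - psi φ q p := by
  have hlt : ∀ p q : K[X], p.Monic → Irreducible p → q.Monic → Irreducible q →
      q.natDegree < p.natDegree → φ p q = psi φ p q - psi φ q p := by
    intro p q hm hi hm' hi' hd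
    have h1 : q %ₘ p = q := by
      rw [modByMonic_eq_self_iff hm]
      exact degree_lt_degree hd
    rw [psi_rec φ hm hi q, h1, mnf_self hm' hi', Multiset.map_singleton, Multiset.sum_singleton]
    ring
  have hp0 := hi.ne_zero
  have hq0 := hi'.ne_zero
  rcases Nat.lt_trichotomy p.natDegree q.natDegree with hd | hd | hd
  · have h1 := hlt q p hm' hi' hm hi hd
    rw [hφ.anti p q hp0 hq0, h1]
    ring
  · set r := q - p with hr
    have hr0 : r ≠ 0 := sub_ne_zero.2 hne.symm
    have hrd : r.degree < p.degree := by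
      have h1 : r.degree < q.degree := by
        apply degree_sub_lt_left
        · rw [degree_eq_natDegree hp0, degree_eq_natDegree hq0, hd]
        · exact hq0
        · rw [hm.leadingCoeff, hm'.leadingCoeff]
      rwa [degree_eq_natDegree hq0, ← hd, ← degree_eq_natDegree hp0] at h1
    have hrd' : r.degree < q.degree := by
      rwa [degree_eq_natDegree hp0, hd, ← degree_eq_natDegree hq0] at hrd
    have h1 : q %ₘ p = r := by
      have : q = r + 1 * p := by rw [hr]; ring
      conv_lhs => rw [this]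
      rw [add_modByMonic, (modByMonic_eq_self_iff hm).2 hrd,
        (modByMonic_eq_zero_iff_dvd hm).2 (dvd_mul_left p 1), add_zero]
    have h2 : p %ₘ q = -r := by
      have : p = -r + 1 * q := by rw [hr]; ring
      conv_lhs => rw [this]
      rw [add_modByMonic, (modByMonic_eq_self_iff hm').2 (by rw [degree_neg]; exact hrd'),
        (modByMonic_eq_zero_iff_dvd hm').2 (dvd_mul_left q 1), add_zero]
    rw [psi_rec φ hm hi q, psi_rec φ hm' hi' p, h1, h2, mnf_neg hr0]
    have h3 : ((mnf r).map (fun s => psi φ s p)) = ((mnf r).map (fun s => psi φ s q)) := by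
      apply Multiset.map_congr rfl
      intro s hs
      obtain ⟨h4, h5, h6⟩ := (mem_mnf hr0).1 hs
      apply psi_congr φ h4 h5
      have : p - q = -r := by rw [hr]; ring
      rw [this]
      exact (dvd_neg).2 h6
    rw [h3]
    have h4 := hφ.rel p r (-q) hp0 hr0 (neg_ne_zero.2 hq0) (by rw [hr]; ring)
    rw [StR_neg_right hφ hr0 hq0, StR_neg_left hφ hq0 hp0, hφ.anti q p hq0 hp0,
      hφ.anti r q hr0 hq0] at h4
    rw [StR_neg_right hφ hq0 hr0]
    linarith
  · exact hlt p q hm hi hm' hi' hd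

/-- the functional minus its residues in a finite set. -/
noncomputable def thS (φ : K[X] → K[X] → ℝ) (S : Finset K[X]) (a b : K[X]) : ℝ :=
  φ a b - ∑ s ∈ S, locD s (psi φ s) a b

theorem thS_StR (hφ : StR φ) (S : Finset K[X])
    (hS : ∀ s ∈ S, Irreducible s ∧ ResHom s (psi φ s)) : StR (thS φ S) := by
  refine ⟨fun a b c ha hb hc => ?_, fun a b ha hb => ?_, fun a b c ha hb hc h => ?_⟩
  · unfold thS
    rw [hφ.mul_left a b c ha hb hc, Finset.sum_congr rfl (fun s hs =>
      (locD_StR (hS s hs).1 (hS s hs).2).mul_left a b c ha hb hc), Finset.sum_add_distrib]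
    ring
  · unfold thS
    rw [hφ.anti a b ha hb, Finset.sum_congr rfl (fun s hs =>
      (locD_StR (hS s hs).1 (hS s hs).2).anti a b ha hb), Finset.sum_neg_distrib]
    ring
  · unfold thS
    have h1 := hφ.rel a b c ha hb hc h
    have h2 := Finset.sum_congr rfl (fun s hs =>
      (locD_StR (hS s hs).1 (hS s hs).2).rel a b c ha hb hc h)
    rw [Finset.sum_add_distrib, Finset.sum_add_distrib, Finset.sum_const_zero] at h2
    linarith

theorem mnf_leadingCoeff {x : K[X]} (hx : x ≠ 0) : (x.leadingCoeff : K) ≠ 0 :=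
  leadingCoeff_ne_zero.2 hx

theorem not_dvd_C {s : K[X]} (hs : Irreducible s) {c : K} (hc : c ≠ 0) : ¬ s ∣ C c :=
  fun h => hs.not_isUnit (isUnit_of_dvd_unit h (isUnit_C.2 (isUnit_iff_ne_zero.2 hc)))

/-- on the pairs with all factors in `S` the functional `thS` is zero. -/
theorem thS_smooth (hφ : StR φ) (hC : ∀ a b : K, a ≠ 0 → b ≠ 0 → φ (C a) (C b) = 0)
    (S : Finset K[X]) (hS : ∀ s ∈ S, Irreducible s ∧ ResHom s (psi φ s))
    (hSm : ∀ s ∈ S, s.Monic) {x y : K[X]} (hx : x ≠ 0) (hy : y ≠ 0)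
    (hxS : ∀ s ∈ mnf x, s ∈ S) (hyS : ∀ s ∈ mnf y, s ∈ S) : thS φ S x y = 0 := by
  have hθ := thS_StR hφ S hS
  have hCC : ∀ a b : K, a ≠ 0 → b ≠ 0 → thS φ S (C a) (C b) = 0 := by
    intro a b ha hb
    unfold thS
    rw [hC a b ha hb, Finset.sum_eq_zero, sub_zero]
    intro s hs
    exact locD_not_dvd (hS s hs).1 (not_dvd_C (hS s hs).1 ha) (not_dvd_C (hS s hs).1 hb)
  have hsC : ∀ t ∈ S, ∀ c : K, c ≠ 0 → thS φ S t (C c) = 0 := by
    intro t ht c hc
    unfold thS
    rw [Finset.sum_eq_single t, locD_self (hS t ht).1 (hS t ht).2 (not_dvd_C (hS t ht).1 hc),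
      psi_C φ (hSm t ht) (hS t ht).1 hc, sub_self]
    · intro s hs hst
      exact locD_not_dvd (hS s hs).1
        (not_dvd_of_ne (hSm s hs) (hS s hs).1 (hSm t ht) (hS t ht).1 hst)
        (not_dvd_C (hS s hs).1 hc)
    · intro h
      exact absurd ht h
  have hst : ∀ t ∈ S, ∀ t' ∈ S, thS φ S t t' = 0 := by
    intro t ht t' ht'
    have ht0 := (hS t ht).1.ne_zero
    by_cases hne : t = t'
    · rw [← hne]
      exact hθ.self t ht0
    · unfold thS
      have hd : ∀ s ∈ S, ∀ s' ∈ S, s ≠ s' → ¬ s ∣ s' := fun s hs s' hs' h =>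
        not_dvd_of_ne (hSm s hs) (hS s hs).1 (hSm s' hs') (hS s' hs').1 h
      rw [Finset.sum_eq_add t t' hne, locD_self (hS t ht).1 (hS t ht).2 (hd t ht t' ht' hne),
        (locD_StR (hS t' ht').1 (hS t' ht').2).anti t t' ht0 (hS t' ht').1.ne_zero,
        locD_self (hS t' ht').1 (hS t' ht').2 (hd t' ht' t ht (Ne.symm hne)),
        psi_pair hφ (hSm t ht) (hS t ht).1 (hSm t' ht') (hS t' ht').1 hne]
      · ring
      · intro s hs h
        exact locD_not_dvd (hS s hs).1 (hd s hs t ht h.1) (hd s hs t' ht' h.2)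
      · intro h
        exact absurd ht h
      · intro h
        exact absurd ht' h
  have hxlc := mnf_leadingCoeff hx
  have hylc := mnf_leadingCoeff hy
  -- constant on the left
  have h1 : ∀ c : K, c ≠ 0 → thS φ S (C c) y = 0 := by
    intro c hc
    have hc0 : (C c : K[X]) ≠ 0 := C_ne_zero.2 hc
    rw [map_mnf (fun z => thS φ S (C c) z)
      (fun a b ha hb => hθ.mul_right (C c) a b hc0 ha hb) hy, hCC _ _ hc hylc, zero_add]
    apply Multiset.sum_eq_zero
    intro r hr
    obtain ⟨s, hs, rfl⟩ := Multiset.mem_map.1 hr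
    have hs0 := (hS s (hyS s hs)).1.ne_zero
    show thS φ S (C c) s = 0
    rw [hθ.anti _ _ hc0 hs0, hsC s (hyS s hs) c hc, neg_zero]
  have h2 : ∀ t ∈ S, thS φ S t y = 0 := by
    intro t ht
    have ht0 := (hS t ht).1.ne_zero
    rw [map_mnf (fun z => thS φ S t z)
      (fun a b ha hb => hθ.mul_right t a b ht0 ha hb) hy, hsC t ht _ hylc, zero_add]
    apply Multiset.sum_eq_zero
    intro r hr
    obtain ⟨s, hs, rfl⟩ := Multiset.mem_map.1 hr
    exact hst t ht s (hyS s hs)
  rw [map_mnf (fun z => thS φ S z y)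
    (fun a b ha hb => hθ.mul_left a b y ha hb hy) hx, h1 _ hxlc, zero_add]
  apply Multiset.sum_eq_zero
  intro r hr
  obtain ⟨s, hs, rfl⟩ := Multiset.mem_map.1 hr
  exact h2 s (hxS s hs)

/-- the values at a new place. -/
theorem thS_new (hφ : StR φ)
    (S : Finset K[X]) (hS : ∀ s ∈ S, Irreducible s ∧ ResHom s (psi φ s))
    (hSm : ∀ s ∈ S, s.Monic) {p x : K[X]} (hm : p.Monic) (hi : Irreducible p) (hpS : p ∉ S)
    (hx : x ≠ 0) (hxS : ∀ s ∈ mnf x, s ∈ S) :
    thS φ S p x = φ p x + ((mnf x).map (fun s => psi φ s p)).sum := by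
  have hp0 := hi.ne_zero
  have hθ := thS_StR hφ S hS
  have hsp : ∀ s ∈ S, ¬ s ∣ p := fun s hs =>
    not_dvd_of_ne (hSm s hs) (hS s hs).1 hm hi (fun h => hpS (h ▸ hs))
  have h1 := map_mnf (fun z => thS φ S p z - φ p z) (fun a b ha hb => by
    show thS φ S p (a * b) - φ p (a * b) = _
    rw [hθ.mul_right p a b hp0 ha hb, hφ.mul_right p a b hp0 ha hb]; ring) hx
  have h2 : thS φ S p (C x.leadingCoeff) - φ p (C x.leadingCoeff) = 0 := by
    unfold thS
    rw [Finset.sum_eq_zero]
    · ring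
    · intro s hs
      exact locD_not_dvd (hS s hs).1 (hsp s hs)
        (not_dvd_C (hS s hs).1 (mnf_leadingCoeff hx))
  have h3 : (mnf x).map (fun z => thS φ S p z - φ p z) = (mnf x).map (fun s => psi φ s p) := by
    apply Multiset.map_congr rfl
    intro t ht
    have htS := hxS t ht
    show thS φ S p t - φ p t = psi φ t p
    unfold thS
    rw [Finset.sum_eq_single t, (locD_StR (hS t htS).1 (hS t htS).2).anti p t hp0
      (hS t htS).1.ne_zero, locD_self (hS t htS).1 (hS t htS).2 (hsp t htS)]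
    · ring
    · intro s hs hst
      exact locD_not_dvd (hS s hs).1 (hsp s hs)
        (not_dvd_of_ne (hSm s hs) (hS s hs).1 (hSm t htS) (hS t htS).1 hst)
    · intro h
      exact absurd htS h
  rw [h3] at h1
  have h4 : thS φ S p x - φ p x =
      (thS φ S p (C x.leadingCoeff) - φ p (C x.leadingCoeff)) +
        ((mnf x).map (fun s => psi φ s p)).sum := h1
  rw [h2] at h4
  linarith

/-- the residues are homomorphisms. -/
theorem psi_hom (hφ : StR φ) (hC : ∀ a b : K, a ≠ 0 → b ≠ 0 → φ (C a) (C b) = 0) :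
    ∀ (n : ℕ) (p : K[X]), p.Monic → Irreducible p → p.natDegree < n → ResHom p (psi φ p) := by
  classical
  intro n
  induction n with
  | zero => intro p _ _ hn; omega
  | succ n ih =>
    intro p hm hi hn
    refine ⟨fun u v hu hv => ?_, psi_congr φ hm hi⟩
    have hp0 := hi.ne_zero
    have hpt : p ≠ 1 := by rintro rfl; exact hi.not_isUnit isUnit_one
    set u0 := u %ₘ p with hu0
    set v0 := v %ₘ p with hv0
    set w := (u0 * v0) %ₘ p with hw
    have hun : u0 ≠ 0 := mod_ne_zero hm hu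
    have hvn : v0 ≠ 0 := mod_ne_zero hm hv
    have hud : u0.natDegree < p.natDegree := mod_deg hm hi u
    have hvd : v0.natDegree < p.natDegree := mod_deg hm hi v
    have hwd : w.natDegree < p.natDegree := mod_deg hm hi _
    have huc : p ∣ u - u0 := by
      refine ⟨u /ₘ p, ?_⟩
      have := modByMonic_add_div u p
      rw [hu0]
      linear_combination -this
    have hvc : p ∣ v - v0 := by
      refine ⟨v /ₘ p, ?_⟩
      have := modByMonic_add_div v p
      rw [hv0]
      linear_combination -this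
    have hpu0 : ¬ p ∣ u0 := fun h => hu (by
      have := dvd_add huc h
      rwa [sub_add_cancel] at this)
    have hpv0 : ¬ p ∣ v0 := fun h => hv (by
      have := dvd_add hvc h
      rwa [sub_add_cancel] at this)
    have huv0 : ¬ p ∣ u0 * v0 := fun h => by
      rcases hi.prime.dvd_or_dvd h with h | h
      · exact hpu0 h
      · exact hpv0 h
    have hwn : w ≠ 0 := mod_ne_zero hm huv0
    set q := (u0 * v0) /ₘ p with hq
    have hdiv : w + p * q = u0 * v0 := modByMonic_add_div (u0 * v0) p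
    have huvc : p ∣ u * v - w := by
      have e : u * v - w = (u - u0) * v + u0 * (v - v0) + p * q := by
        rw [← sub_eq_iff_eq_add'.2 hdiv.symm]; ring
      rw [e]
      exact dvd_add (dvd_add (Dvd.dvd.mul_right huc v) (Dvd.dvd.mul_left hvc u0))
        (dvd_mul_right p q)
    have hsm : ∀ x : K[X], x ≠ 0 → x.natDegree < p.natDegree →
        psi φ p x = φ p x + ((mnf x).map (fun s => psi φ s p)).sum := by
      intro x hx hxd
      rw [psi_rec φ hm hi x, (modByMonic_eq_self_iff hm).2 (degree_lt_degree hxd)]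
    rw [psi_congr φ hm hi _ _ huvc, psi_congr φ hm hi _ _ huc, psi_congr φ hm hi _ _ hvc]
    by_cases hq0 : q = 0
    · have hw' : w = u0 * v0 := by rw [← hdiv, hq0, mul_zero, add_zero]
      rw [hsm w hwn hwd, hsm u0 hun hud, hsm v0 hvn hvd, hw', mnf_mul hun hvn,
        hφ.mul_right p u0 v0 hp0 hun hvn, Multiset.map_add, Multiset.sum_add]
      ring
    · have hqd : q.natDegree < p.natDegree := by
        have h1 : (p * q).natDegree ≤ (u0 * v0).natDegree := by
          have e : p * q = u0 * v0 - w := by rw [← hdiv]; ring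
          rw [e]
          refine (natDegree_sub_le _ _).trans (max_le le_rfl ?_)
          by_contra hlt
          rw [not_le] at hlt
          have h2 : (p * q).natDegree ≤ w.natDegree := by
            rw [e]
            exact (natDegree_sub_le _ _).trans (max_le hlt.le le_rfl)
          rw [natDegree_mul hp0 hq0] at h2
          omega
        rw [natDegree_mul hp0 hq0, natDegree_mul hun hvn] at h1
        omega
      set S : Finset K[X] := (mnf (u0 * v0 * (w * q))).toFinset with hS
      have hprod : u0 * v0 * (w * q) ≠ 0 :=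
        mul_ne_zero (mul_ne_zero hun hvn) (mul_ne_zero hwn hq0)
      have hmem : ∀ s, s ∈ S ↔ s ∈ mnf u0 ∨ s ∈ mnf v0 ∨ s ∈ mnf w ∨ s ∈ mnf q := by
        intro s
        rw [hS, Multiset.mem_toFinset, mnf_mul (mul_ne_zero hun hvn) (mul_ne_zero hwn hq0),
          mnf_mul hun hvn, mnf_mul hwn hq0, Multiset.mem_add, Multiset.mem_add, Multiset.mem_add]
        tauto
      have hSall : ∀ s ∈ S, s.Monic ∧ Irreducible s ∧ s.natDegree < p.natDegree := by
        intro s hs
        rcases (hmem s).1 hs with h | h | h | h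
        · exact ⟨((mem_mnf hun).1 h).1, ((mem_mnf hun).1 h).2.1, lt_of_le_of_lt (mnf_deg hun h) hud⟩
        · exact ⟨((mem_mnf hvn).1 h).1, ((mem_mnf hvn).1 h).2.1, lt_of_le_of_lt (mnf_deg hvn h) hvd⟩
        · exact ⟨((mem_mnf hwn).1 h).1, ((mem_mnf hwn).1 h).2.1, lt_of_le_of_lt (mnf_deg hwn h) hwd⟩
        · exact ⟨((mem_mnf hq0).1 h).1, ((mem_mnf hq0).1 h).2.1, lt_of_le_of_lt (mnf_deg hq0 h) hqd⟩
      have hSm : ∀ s ∈ S, s.Monic := fun s hs => (hSall s hs).1
      have hSr : ∀ s ∈ S, Irreducible s ∧ ResHom s (psi φ s) := fun s hs =>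
        ⟨(hSall s hs).2.1, ih s (hSall s hs).1 (hSall s hs).2.1 (by
          have := (hSall s hs).2.2; omega)⟩
      have hpS : p ∉ S := fun h => lt_irrefl _ (hSall p h).2.2
      have hθ := thS_StR hφ S hSr
      have huvn := mul_ne_zero hun hvn
      have hnew : ∀ x : K[X], x ≠ 0 → x.natDegree < p.natDegree → (∀ s ∈ mnf x, s ∈ S) →
          thS φ S p x = psi φ p x := by
        intro x hx hxd hxS
        rw [thS_new hφ S hSr hSm hm hi hpS hx hxS, hsm x hx hxd]
      have hwS : ∀ s ∈ mnf w, s ∈ S := fun s hs => (hmem s).2 (Or.inr (Or.inr (Or.inl hs)))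
      have huS : ∀ s ∈ mnf u0, s ∈ S := fun s hs => (hmem s).2 (Or.inl hs)
      have hvS : ∀ s ∈ mnf v0, s ∈ S := fun s hs => (hmem s).2 (Or.inr (Or.inl hs))
      have hqS : ∀ s ∈ mnf q, s ∈ S := fun s hs => (hmem s).2 (Or.inr (Or.inr (Or.inr hs)))
      have huvS : ∀ s ∈ mnf (u0 * v0), s ∈ S := by
        intro s hs
        rw [mnf_mul hun hvn, Multiset.mem_add] at hs
        rcases hs with hs | hs
        · exact huS s hs
        · exact hvS s hs
      rw [← hnew w hwn hwd hwS, ← hnew u0 hun hud huS, ← hnew v0 hvn hvd hvS,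
        ← hθ.mul_right p u0 v0 hp0 hun hvn]
      have hpq0 : p * q ≠ 0 := mul_ne_zero hp0 hq0
      have h1 := hθ.rel (u0 * v0) (-(p * q)) (-w) huvn (neg_ne_zero.2 hpq0)
        (neg_ne_zero.2 hwn) (by rw [← hdiv]; ring)
      rw [StR_neg_right hθ huvn hpq0, StR_neg_left hθ hpq0 (neg_ne_zero.2 hwn),
        StR_neg_right hθ hpq0 hwn, StR_neg_left hθ hwn huvn,
        thS_smooth hφ hC S hSr hSm hwn huvn hwS huvS,
        hθ.mul_right _ p q huvn hp0 hq0, hθ.mul_left p q w hp0 hq0 hwn,
        thS_smooth hφ hC S hSr hSm huvn hq0 huvS hqS,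
        thS_smooth hφ hC S hSr hSm hq0 hwn hqS hwS,
        hθ.anti (u0 * v0) p huvn hp0] at h1
      linarith

/-- **Milnor's theorem for functionals, `n = 2`**: a Steinberg functional on `K[X]` which
vanishes on the constants is the sum of its residues. -/
theorem exists_residues (hφ : StR φ) (hC : ∀ a b : K, a ≠ 0 → b ≠ 0 → φ (C a) (C b) = 0) :
    ∃ ψ : K[X] → K[X] → ℝ, (∀ p : K[X], p.Monic → Irreducible p → ResHom p (ψ p)) ∧
      (∀ p : K[X], p.Monic → Irreducible p → ∀ c : K, c ≠ 0 → ψ p (C c) = φ p (C c)) ∧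
      (∀ p q : K[X], p.Monic → Irreducible p → q.Monic → Irreducible q → p ≠ q →
        φ p q = ψ p q - ψ q p) ∧
      ∀ (S : Finset K[X]) (x y : K[X]), (∀ s ∈ S, s.Monic ∧ Irreducible s) → x ≠ 0 → y ≠ 0 →
        (∀ p : K[X], p.Monic → Irreducible p → p ∣ x * y → p ∈ S) →
        φ x y = ∑ s ∈ S, locD s (ψ s) x y := by
  have hh : ∀ p : K[X], p.Monic → Irreducible p → ResHom p (psi φ p) := fun p hm hi =>
    psi_hom hφ hC (p.natDegree + 1) p hm hi (Nat.lt_succ_self _)
  refine ⟨psi φ, hh, fun p hm hi c hc => psi_C φ hm hi hc,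
    fun p q hm hi hm' hi' hne => psi_pair hφ hm hi hm' hi' hne, fun S x y hS hx hy hxy => ?_⟩
  have h1 := thS_smooth hφ hC S (fun s hs => ⟨(hS s hs).2, hh s (hS s hs).1 (hS s hs).2⟩)
    (fun s hs => (hS s hs).1) hx hy
    (fun s hs => hxy s ((mem_mnf hx).1 hs).1 ((mem_mnf hx).1 hs).2.1
      (Dvd.dvd.mul_right ((mem_mnf hx).1 hs).2.2 y))
    (fun s hs => hxy s ((mem_mnf hy).1 hs).1 ((mem_mnf hy).1 hs).2.1
      (Dvd.dvd.mul_left ((mem_mnf hy).1 hs).2.2 x))
  unfold thS at h1
  linarith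

end

end Pool.Agent.K3
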