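import Pool.Agent.K3.EMulti
import Pool.Agent.Harder.Stein

/-!
K3 project: the functional form of Milnor's theorem on `K_3` of a rational function field.
If all Steinberg functionals in two variables on the residue fields `K[X]/π` and all Steinberg
functionals in three variables on `K` vanish, then all Steinberg functionals in three variables
on `K(X)` vanish.
-/

set_option autoImplicit false

open Polynomial

namespace Pool.Agent.K3

open Pool.Agent.Harder (St2)

variable {F : Type} [Field F] {f : F → F → F → ℝ}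

/-- the relation for `x + y = z`. -/
theorem IsStein3.mv_rel (hf : IsStein3 f) (x y z c : F) (hx : x ≠ 0) (hy : y ≠ 0) (hz : z ≠ 0)
    (hc : c ≠ 0) (h : x + y = z) : f x y c = f x z c + f z y c := by
  have hzi := inv_ne_zero hz
  have h1 : f (x * z⁻¹) (y * z⁻¹) c = 0 := by
    have e : y * z⁻¹ = 1 - x * z⁻¹ := by
      field_simp
      rw [← h]; ring
    rw [e]
    exact hf.st12 _ _ (mul_ne_zero hx hzi) (by rw [← e]; exact mul_ne_zero hy hzi) hc
  rw [hf.mul1 _ _ _ _ hx hzi (mul_ne_zero hy hzi) hc, hf.mul2 _ _ _ _ hx hy hzi hc,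
    hf.mul2 _ _ _ _ hzi hy hzi hc, hf.inv2 _ _ _ hx hz hc, hf.inv1 _ _ _ hz hy hc,
    hf.inv1 _ _ _ hz hzi hc, hf.inv2 _ _ _ hz hz hc, hf.self12 _ _ hz hc] at h1
  linarith

section
variable {K : Type} [Field K]

/-- additive functions on polynomials of degree at most `d + 1`. -/
theorem mv_lemmaA (d : ℕ) (g : K[X] → ℝ) (hmul : ∀ a b, a ≠ 0 → b ≠ 0 → g (a * b) = g a + g b)
    (hs : ∀ a, a ≠ 0 → a.natDegree ≤ d → g a = 0)
    (hi : ∀ π : K[X], π.Monic → Irreducible π → π.natDegree = d + 1 → g π = 0)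
    (a : K[X]) (ha : a ≠ 0) (hd : a.natDegree ≤ d + 1) : g a = 0 := by
  rcases Nat.lt_or_ge a.natDegree (d + 1) with h1 | h1
  · exact hs a ha (by omega)
  have hda : a.natDegree = d + 1 := le_antisymm hd h1
  by_cases hirr : Irreducible a
  · have hlc : a.leadingCoeff ≠ 0 := leadingCoeff_ne_zero.2 ha
    have hC : (C a.leadingCoeff : K[X]) ≠ 0 := C_ne_zero.2 hlc
    have hCi : (C a.leadingCoeff⁻¹ : K[X]) ≠ 0 := C_ne_zero.2 (inv_ne_zero hlc)
    have hm : (a * C a.leadingCoeff⁻¹).Monic := monic_mul_leadingCoeff_inv ha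
    have hu : IsUnit (C a.leadingCoeff⁻¹ : K[X]) :=
      isUnit_C.2 (isUnit_iff_ne_zero.2 (inv_ne_zero hlc))
    have hirr' : Irreducible (a * C a.leadingCoeff⁻¹) :=
      (irreducible_mul_isUnit hu).2 hirr
    have hdeg : (a * C a.leadingCoeff⁻¹).natDegree = d + 1 := by
      rw [natDegree_mul ha hCi, natDegree_C, hda, add_zero]
    have h2 := hi _ hm hirr' hdeg
    rw [hmul _ _ ha hCi, hs _ hCi (by rw [natDegree_C]; exact Nat.zero_le _), add_zero] at h2
    exact h2
  · have hnu : ¬ IsUnit a := by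
      intro hu
      have := natDegree_eq_zero_of_isUnit hu
      omega
    rw [irreducible_iff] at hirr
    push Not at hirr
    obtain ⟨b, c, hbc, hb, hc⟩ := hirr hnu
    have hb0 : b ≠ 0 := by rintro rfl; exact ha (by rw [hbc, zero_mul])
    have hc0 : c ≠ 0 := by rintro rfl; exact ha (by rw [hbc, mul_zero])
    have hdb : b.natDegree ≠ 0 := fun h => hb ((isUnit_iff_degree_eq_zero).2
      (by rw [degree_eq_natDegree hb0, h]; rfl))
    have hdc : c.natDegree ≠ 0 := fun h => hc ((isUnit_iff_degree_eq_zero).2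
      (by rw [degree_eq_natDegree hc0, h]; rfl))
    have hsum : b.natDegree + c.natDegree = d + 1 := by
      rw [← natDegree_mul hb0 hc0, ← hbc, hda]
    rw [hbc, hmul _ _ hb0 hc0, hs b hb0 (by omega), hs c hc0 (by omega), add_zero]

end

section
variable {K : Type} [Field K] {T : K[X] → K[X] → K[X] → ℝ}

/-- the properties of the restriction to polynomials which are used. -/
structure MvT (T : K[X] → K[X] → K[X] → ℝ) : Prop where
  mul1 : ∀ x x' y z, x ≠ 0 → x' ≠ 0 → y ≠ 0 → z ≠ 0 → T (x * x') y z = T x y z + T x' y z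
  swap12 : ∀ x y z, x ≠ 0 → y ≠ 0 → z ≠ 0 → T x y z = - T y x z
  swap23 : ∀ x y z, x ≠ 0 → y ≠ 0 → z ≠ 0 → T x y z = - T x z y
  rel : ∀ x y z c, x ≠ 0 → y ≠ 0 → z ≠ 0 → c ≠ 0 → x + y = z → T x y c = T x z c + T z y c
  one : ∀ x z, x ≠ 0 → z ≠ 0 → 1 - z ≠ 0 → T x z (1 - z) = 0

namespace MvT

theorem mul2 (hT : MvT T) (x y y' z : K[X]) (hx : x ≠ 0) (hy : y ≠ 0) (hy' : y' ≠ 0)
    (hz : z ≠ 0) : T x (y * y') z = T x y z + T x y' z := by
  rw [hT.swap12 x (y * y') z hx (mul_ne_zero hy hy') hz, hT.mul1 y y' x z hy hy' hx hz,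
    hT.swap12 x y z hx hy hz, hT.swap12 x y' z hx hy' hz]
  ring

theorem mul3 (hT : MvT T) (x y z z' : K[X]) (hx : x ≠ 0) (hy : y ≠ 0) (hz : z ≠ 0)
    (hz' : z' ≠ 0) : T x y (z * z') = T x y z + T x y z' := by
  rw [hT.swap23 x y (z * z') hx hy (mul_ne_zero hz hz'), hT.mul2 x z z' y hx hz hz' hy,
    hT.swap23 x y z hx hy hz, hT.swap23 x y z' hx hy hz']
  ring

theorem self12 (hT : MvT T) (x z : K[X]) (hx : x ≠ 0) (hz : z ≠ 0) : T x x z = 0 := by
  have h := hT.swap12 x x z hx hx hz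
  linarith

/-- the main step: `T π b c = 0` for `b, c` of smaller degree. -/
theorem claim1 (hT : MvT T) (d : ℕ)
    (ih : ∀ a b c : K[X], a ≠ 0 → b ≠ 0 → c ≠ 0 → a.natDegree ≤ d → b.natDegree ≤ d →
      c.natDegree ≤ d → T a b c = 0)
    (hP : ∀ (π : K[X]) [Fact (Irreducible π)] (φ : AdjoinRoot π → AdjoinRoot π → ℝ), St2 φ →
      ∀ a b, a ≠ 0 → b ≠ 0 → φ a b = 0)
    (π : K[X]) (hm : π.Monic) (hirr : Irreducible π) (hd : π.natDegree = d + 1)
    (b c : K[X]) (hb : b ≠ 0) (hc : c ≠ 0) (hbd : b.natDegree ≤ d) (hcd : c.natDegree ≤ d) :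
    T π b c = 0 := by
  have hF : Fact (Irreducible π) := ⟨hirr⟩
  have hπ0 : π ≠ 0 := hm.ne_zero
  set r : AdjoinRoot π →ₗ[K] K[X] := AdjoinRoot.modByMonicHom hm with hr
  have hmk : ∀ u, AdjoinRoot.mk π (r u) = u := fun u => AdjoinRoot.mk_leftInverse hm u
  have hrmk : ∀ a : K[X], r (AdjoinRoot.mk π a) = a %ₘ π := fun a =>
    AdjoinRoot.modByMonicHom_mk hm a
  have hsmall : ∀ a : K[X], a.natDegree ≤ d → r (AdjoinRoot.mk π a) = a := by
    intro a ha
    rw [hrmk, modByMonic_eq_self_iff hm]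
    apply degree_lt_degree
    omega
  have hdeg : ∀ u, (r u).natDegree ≤ d := by
    intro u
    rw [← hmk u, hrmk]
    have := natDegree_modByMonic_lt (r u) hm (by rintro rfl; rw [natDegree_one] at hd; omega)
    omega
  have hne : ∀ u, u ≠ 0 → r u ≠ 0 := by
    intro u hu h0
    apply hu
    rw [← hmk u, h0, map_zero]
  have hadd : ∀ u u' v, u ≠ 0 → u' ≠ 0 → v ≠ 0 →
      T π (r (u * u')) (r v) = T π (r u) (r v) + T π (r u') (r v) := by
    intro u u' v hu hu' hv
    have hw0 : r (u * u') ≠ 0 := hne _ (mul_ne_zero hu hu')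
    have hp0 : r u * r u' ≠ 0 := mul_ne_zero (hne u hu) (hne u' hu')
    have hdiv : π ∣ r u * r u' - r (u * u') := by
      rw [← AdjoinRoot.mk_eq_zero, map_sub, map_mul, hmk, hmk, hmk, sub_self]
    obtain ⟨q, hq⟩ := hdiv
    by_cases hq0 : q = 0
    · rw [hq0, mul_zero, sub_eq_zero] at hq
      rw [← hq, hT.mul2 _ _ _ _ hπ0 (hne u hu) (hne u' hu') (hne v hv)]
    · have hqd : q.natDegree ≤ d := by
        have h1 : (π * q).natDegree ≤ d + d := by
          rw [← hq]
          refine (natDegree_sub_le _ _).trans (max_le ?_ ((hdeg _).trans (by omega)))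
          exact natDegree_mul_le.trans (add_le_add (hdeg u) (hdeg u'))
        rw [natDegree_mul hπ0 hq0, hd] at h1
        omega
      have e : q * π + r (u * u') = r u * r u' := by
        rw [mul_comm q π, ← hq]; ring
      have h1 := hT.rel (q * π) (r (u * u')) (r u * r u') (r v) (mul_ne_zero hq0 hπ0) hw0 hp0
        (hne v hv) e
      rw [hT.mul1 q π _ _ hq0 hπ0 hw0 (hne v hv), hT.mul1 q π _ _ hq0 hπ0 hp0 (hne v hv),
        hT.mul2 q _ _ _ hq0 (hne u hu) (hne u' hu') (hne v hv),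
        hT.mul2 π _ _ _ hπ0 (hne u hu) (hne u' hu') (hne v hv),
        hT.mul1 _ _ _ _ (hne u hu) (hne u' hu') hw0 (hne v hv),
        ih q _ _ hq0 hw0 (hne v hv) hqd (hdeg _) (hdeg _),
        ih q _ _ hq0 (hne u hu) (hne v hv) hqd (hdeg _) (hdeg _),
        ih q _ _ hq0 (hne u' hu') (hne v hv) hqd (hdeg _) (hdeg _),
        ih (r u) _ _ (hne u hu) hw0 (hne v hv) (hdeg _) (hdeg _) (hdeg _),
        ih (r u') _ _ (hne u' hu') hw0 (hne v hv) (hdeg _) (hdeg _) (hdeg _)] at h1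
      linarith
  have hswap : ∀ u v, u ≠ 0 → v ≠ 0 → T π (r u) (r v) = - T π (r v) (r u) := fun u v hu hv =>
    hT.swap23 _ _ _ hπ0 (hne u hu) (hne v hv)
  have hSt : St2 (fun u v => T π (r u) (r v)) := by
    refine ⟨hadd, fun u v v' hu hv hv' => ?_, fun u hu hu1 => ?_⟩
    · show T π (r u) (r (v * v')) = T π (r u) (r v) + T π (r u) (r v')
      rw [hswap u (v * v') hu (mul_ne_zero hv hv'), hadd v v' u hv hv' hu, hswap u v hu hv,
        hswap u v' hu hv']
      ring
    · show T π (r u) (r (1 - u)) = 0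
      have e1 : r 1 = 1 := by
        have := hsmall 1 (by rw [natDegree_one]; exact Nat.zero_le _)
        rwa [map_one] at this
      have e : r (1 - u) = 1 - r u := by rw [map_sub, e1]
      have h1 : 1 - r u ≠ 0 := by rw [← e]; exact hne _ hu1
      rw [e]
      exact hT.one _ _ hπ0 (hne u hu) h1
  have hbn : AdjoinRoot.mk π b ≠ 0 := by
    intro h0
    apply hb
    rw [← hsmall b hbd, h0, map_zero]
  have hcn : AdjoinRoot.mk π c ≠ 0 := by
    intro h0
    apply hc
    rw [← hsmall c hcd, h0, map_zero]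
  have := hP π _ hSt _ _ hbn hcn
  simp only [hsmall b hbd, hsmall c hcd] at this
  exact this

/-- all symbols of polynomials vanish. -/
theorem vanish (hT : MvT T)
    (h0 : ∀ a b c : K, a ≠ 0 → b ≠ 0 → c ≠ 0 → T (C a) (C b) (C c) = 0)
    (hP : ∀ (π : K[X]) [Fact (Irreducible π)] (φ : AdjoinRoot π → AdjoinRoot π → ℝ), St2 φ →
      ∀ a b, a ≠ 0 → b ≠ 0 → φ a b = 0) (d : ℕ) :
    ∀ a b c : K[X], a ≠ 0 → b ≠ 0 → c ≠ 0 → a.natDegree ≤ d → b.natDegree ≤ d →
      c.natDegree ≤ d → T a b c = 0 := by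
  induction d with
  | zero =>
    intro a b c ha hb hc hda hdb hdc
    have ea := eq_C_of_natDegree_le_zero hda
    have eb := eq_C_of_natDegree_le_zero hdb
    have ec := eq_C_of_natDegree_le_zero hdc
    rw [ea, eb, ec]
    rw [ea] at ha
    rw [eb] at hb
    rw [ec] at hc
    exact h0 _ _ _ (C_ne_zero.1 ha) (C_ne_zero.1 hb) (C_ne_zero.1 hc)
  | succ d ih =>
    have c1 := hT.claim1 d ih hP
    -- two large entries
    have c2 : ∀ π π' c : K[X], π.Monic → Irreducible π → π.natDegree = d + 1 → π'.Monic →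
        Irreducible π' → π'.natDegree = d + 1 → c ≠ 0 → (∀ ρ : K[X], ρ.Monic → Irreducible ρ →
          ρ.natDegree = d + 1 → ∀ r, r ≠ 0 → r.natDegree ≤ d → T ρ r c = 0) →
        T π π' c = 0 := by
      intro π π' c hm hi hd hm' hi' hd' hc hr
      by_cases e : π = π'
      · rw [← e]; exact hT.self12 π c hm.ne_zero hc
      have hr0 : π' - π ≠ 0 := sub_ne_zero.2 (Ne.symm e)
      have hrd : (π' - π).natDegree ≤ d := by
        have h1 : (π' - π).degree < π'.degree := by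
          apply degree_sub_lt_left _ hm'.ne_zero _
          · rw [degree_eq_natDegree hm'.ne_zero, degree_eq_natDegree hm.ne_zero, hd, hd']
          · rw [hm.leadingCoeff, hm'.leadingCoeff]
        have := natDegree_lt_natDegree hr0 h1
        omega
      have h1 := hT.rel π (π' - π) π' c hm.ne_zero hr0 hm'.ne_zero hc (by ring)
      rw [hr π hm hi hd _ hr0 hrd, hr π' hm' hi' hd' _ hr0 hrd] at h1
      linarith
    -- (i)
    have s1 : ∀ a b c : K[X], a ≠ 0 → b ≠ 0 → c ≠ 0 → a.natDegree ≤ d + 1 → b.natDegree ≤ d →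
        c.natDegree ≤ d → T a b c = 0 := by
      intro a b c ha hb hc hda hdb hdc
      exact mv_lemmaA d (fun x => T x b c) (fun x y hx hy => hT.mul1 x y b c hx hy hb hc)
        (fun x hx hdx => ih x b c hx hb hc hdx hdb hdc)
        (fun π hm hi hd => c1 π hm hi hd b c hb hc hdb hdc) a ha hda
    -- (ii)
    have s2' : ∀ π b c : K[X], π.Monic → Irreducible π → π.natDegree = d + 1 → b ≠ 0 → c ≠ 0 →
        b.natDegree ≤ d + 1 → c.natDegree ≤ d → T π b c = 0 := by
      intro π b c hm hi hd hb hc hdb hdc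
      exact mv_lemmaA d (fun x => T π x c)
        (fun x y hx hy => hT.mul2 π x y c hm.ne_zero hx hy hc)
        (fun x hx hdx => c1 π hm hi hd x c hx hc hdx hdc)
        (fun π' hm' hi' hd' => c2 π π' c hm hi hd hm' hi' hd' hc
          (fun ρ h1 h2 h3 r hr hrd => c1 ρ h1 h2 h3 r c hr hc hrd hdc)) b hb hdb
    have s2 : ∀ a b c : K[X], a ≠ 0 → b ≠ 0 → c ≠ 0 → a.natDegree ≤ d + 1 →
        b.natDegree ≤ d + 1 → c.natDegree ≤ d → T a b c = 0 := by
      intro a b c ha hb hc hda hdb hdc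
      refine mv_lemmaA d (fun x => T x b c) (fun x y hx hy => hT.mul1 x y b c hx hy hb hc)
        (fun x hx hdx => ?_) (fun π hm hi hd => s2' π b c hm hi hd hb hc hdb hdc) a ha hda
      show T x b c = 0
      rw [hT.swap12 x b c hx hb hc, s1 b x c hb hx hc hdb hdx hdc, neg_zero]
    -- (iii)
    have c3 : ∀ π π' c : K[X], π.Monic → Irreducible π → π.natDegree = d + 1 → π'.Monic →
        Irreducible π' → π'.natDegree = d + 1 → c ≠ 0 → c.natDegree ≤ d + 1 → T π π' c = 0 := by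
      intro π π' c hm hi hd hm' hi' hd' hc hdc
      apply c2 π π' c hm hi hd hm' hi' hd' hc
      intro ρ h1 h2 h3 r hr hrd
      rw [hT.swap23 ρ r c h1.ne_zero hr hc, s2' ρ c r h1 h2 h3 hc hr hdc hrd, neg_zero]
    have s3' : ∀ π b c : K[X], π.Monic → Irreducible π → π.natDegree = d + 1 → b ≠ 0 → c ≠ 0 →
        b.natDegree ≤ d + 1 → c.natDegree ≤ d + 1 → T π b c = 0 := by
      intro π b c hm hi hd hb hc hdb hdc
      refine mv_lemmaA d (fun x => T π x c)
        (fun x y hx hy => hT.mul2 π x y c hm.ne_zero hx hy hc)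
        (fun x hx hdx => ?_)
        (fun π' hm' hi' hd' => c3 π π' c hm hi hd hm' hi' hd' hc hdc) b hb hdb
      show T π x c = 0
      rw [hT.swap23 π x c hm.ne_zero hx hc, s2' π c x hm hi hd hc hx hdc hdx, neg_zero]
    intro a b c ha hb hc hda hdb hdc
    refine mv_lemmaA d (fun x => T x b c) (fun x y hx hy => hT.mul1 x y b c hx hy hb hc)
      (fun x hx hdx => ?_) (fun π hm hi hd => s3' π b c hm hi hd hb hc hdb hdc) a ha hda
    show T x b c = 0
    rw [hT.swap12 x b c hx hb hc, hT.swap23 b x c hb hx hc, s2 b c x hb hc hx hdb hdc hdx]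
    simp

end MvT

end

/-- **Milnor's theorem for functionals (`n = 3`).** -/
theorem stein3_fractionRing {K : Type} [Field K] [Algebra K[X] F] [IsFractionRing K[X] F]
    (hf : IsStein3 f)
    (hK : ∀ g : K → K → K → ℝ, IsStein3 g → ∀ a b c, a ≠ 0 → b ≠ 0 → c ≠ 0 → g a b c = 0)
    (hP : ∀ (π : K[X]) [Fact (Irreducible π)] (φ : AdjoinRoot π → AdjoinRoot π → ℝ), St2 φ →
      ∀ a b, a ≠ 0 → b ≠ 0 → φ a b = 0)
    (x y z : F) (hx : x ≠ 0) (hy : y ≠ 0) (hz : z ≠ 0) : f x y z = 0 := by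
  have hinj : Function.Injective (algebraMap K[X] F) := IsFractionRing.injective K[X] F
  have hne : ∀ a : K[X], a ≠ 0 → algebraMap K[X] F a ≠ 0 := fun a ha h0 =>
    ha (hinj (by rw [h0, map_zero]))
  have hT : MvT (fun a b c : K[X] => f (algebraMap K[X] F a) (algebraMap K[X] F b)
      (algebraMap K[X] F c)) := by
    refine ⟨fun x x' y z hx hx' hy hz => ?_, fun x y z hx hy hz => ?_, fun x y z hx hy hz => ?_,
      fun x y z c hx hy hz hc h => ?_, fun x z hx hz h1 => ?_⟩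
    · simp only [map_mul]
      exact hf.mul1 _ _ _ _ (hne x hx) (hne x' hx') (hne y hy) (hne z hz)
    · exact hf.swap12 _ _ _ (hne x hx) (hne y hy) (hne z hz)
    · exact hf.swap23 _ _ _ (hne x hx) (hne y hy) (hne z hz)
    · exact hf.mv_rel _ _ _ _ (hne x hx) (hne y hy) (hne z hz) (hne c hc) (by rw [← map_add, h])
    · have h2 := hne _ h1
      simp only [map_sub, map_one] at h2 ⊢
      exact hf.st23 _ _ (hne z hz) h2 (hne x hx)
  have hC : ∀ a b c : K, a ≠ 0 → b ≠ 0 → c ≠ 0 → f (algebraMap K[X] F (C a))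
      (algebraMap K[X] F (C b)) (algebraMap K[X] F (C c)) = 0 := by
    intro a b c ha hb hc
    exact hK _ (hf.comp ((algebraMap K[X] F).comp C)) a b c ha hb hc
  have hpoly : ∀ a b c : K[X], a ≠ 0 → b ≠ 0 → c ≠ 0 → f (algebraMap K[X] F a)
      (algebraMap K[X] F b) (algebraMap K[X] F c) = 0 := fun a b c ha hb hc =>
    hT.vanish hC hP (max a.natDegree (max b.natDegree c.natDegree)) a b c ha hb hc
      (le_max_left _ _) ((le_max_left _ _).trans (le_max_right _ _))
      ((le_max_right _ _).trans (le_max_right _ _))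
  have key : ∀ w : F, w ≠ 0 → ∃ a b : K[X], a ≠ 0 ∧ b ≠ 0 ∧
      w = algebraMap K[X] F a * (algebraMap K[X] F b)⁻¹ := by
    intro w hw
    obtain ⟨a, b, hb, e⟩ := IsFractionRing.div_surjective (A := K[X]) w
    have hb0 : b ≠ 0 := nonZeroDivisors.ne_zero hb
    refine ⟨a, b, ?_, hb0, ?_⟩
    · rintro rfl
      rw [map_zero, zero_div] at e
      exact hw e.symm
    · rw [← e, div_eq_mul_inv]
  obtain ⟨a, a', ha, ha', rfl⟩ := key x hx
  obtain ⟨b, b', hb, hb', rfl⟩ := key y hy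
  obtain ⟨c, c', hc, hc', rfl⟩ := key z hz
  have h1 := hne a ha
  have h1' := hne a' ha'
  have h2 := hne b hb
  have h2' := hne b' hb'
  have h3 := hne c hc
  have h3' := hne c' hc'
  rw [hf.mul1 _ _ _ _ h1 (inv_ne_zero h1') hy hz, hf.inv1 _ _ _ h1' hy hz,
    hf.mul2 _ _ _ _ h1 h2 (inv_ne_zero h2') hz, hf.inv2 _ _ _ h1 h2' hz,
    hf.mul2 _ _ _ _ h1' h2 (inv_ne_zero h2') hz, hf.inv2 _ _ _ h1' h2' hz,
    hf.mul3 _ _ _ _ h1 h2 h3 (inv_ne_zero h3'), hf.inv3 _ _ _ h1 h2 h3',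
    hf.mul3 _ _ _ _ h1 h2' h3 (inv_ne_zero h3'), hf.inv3 _ _ _ h1 h2' h3',
    hf.mul3 _ _ _ _ h1' h2 h3 (inv_ne_zero h3'), hf.inv3 _ _ _ h1' h2 h3',
    hf.mul3 _ _ _ _ h1' h2' h3 (inv_ne_zero h3'), hf.inv3 _ _ _ h1' h2' h3',
    hpoly a b c ha hb hc, hpoly a b c' ha hb hc', hpoly a b' c ha hb' hc,
    hpoly a b' c' ha hb' hc', hpoly a' b c ha' hb hc, hpoly a' b c' ha' hb hc',
    hpoly a' b' c ha' hb' hc, hpoly a' b' c' ha' hb' hc']
  simp

end Pool.Agent.K3
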