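import Pool.Agent.K3.MilnorRes

/-!
K3 project: from Harder's theorem (in the form `HarderSt`) all Steinberg functionals in three
variables vanish on `K(X)`, `K` of transcendence degree at most one over `k`.
-/

set_option autoImplicit false

open Polynomial

namespace Pool.Agent.K3

open Pool.Agent.Harder (St2 StR)

/-- transcendence degree at most one. -/
def Dep2 (k L : Type) [Field k] [Field L] [Algebra k L] : Prop :=
  ∀ a b : L, ¬ AlgebraicIndependent k ![a, b]

/-- Harder's theorem for all fields of transcendence degree at most one over `k`. -/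
def HarderSt (k : Type) [Field k] : Prop :=
  ∀ (L : Type) [Field L] [Algebra k L], Dep2 k L → ∀ φ : L → L → ℝ, St2 φ →
    ∀ x y, x ≠ 0 → y ≠ 0 → φ x y = 0

theorem Dep2.trdeg_le {k L : Type} [Field k] [Field L] [Algebra k L] (h : Dep2 k L) :
    Algebra.trdeg k L ≤ 1 := by
  by_contra hlt
  rw [not_le] at hlt
  obtain ⟨ι, s, hs⟩ := exists_isTranscendenceBasis' k L
  rw [← hs.cardinalMk_eq_trdeg, Cardinal.one_lt_iff_nontrivial] at hlt
  obtain ⟨a, b, hab⟩ := hlt
  apply h (s a) (s b)
  have h1 : AlgebraicIndependent k (s ∘ ![a, b]) := by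
    apply hs.1.comp
    intro i j hij
    fin_cases i <;> fin_cases j <;> simp_all
  have h2 : s ∘ ![a, b] = ![s a, s b] := by
    funext i
    fin_cases i <;> rfl
  rwa [h2] at h1

theorem Dep2.of_trdeg_le {k L : Type} [Field k] [Field L] [Algebra k L]
    (h : Algebra.trdeg k L ≤ 1) : Dep2 k L := by
  intro a b hab
  have h1 := hab.cardinalMk_le_trdeg
  rw [Cardinal.mk_fin] at h1
  have h2 := h1.trans h
  norm_num at h2

theorem Dep2.of_isAlgebraic {k K L : Type} [Field k] [Field K] [Field L] [Algebra k K]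
    [Algebra k L] [Algebra K L] [IsScalarTower k K L] [Algebra.IsAlgebraic K L]
    (h : Dep2 k K) : Dep2 k L := by
  apply Dep2.of_trdeg_le
  rw [← trdeg_add_eq k K, trdeg_eq_zero (R := K) (A := L), add_zero]
  exact h.trdeg_le

/-- functionals in three variables vanish if those in two variables do. -/
theorem stein3_of_st2 {K : Type} [Field K]
    (h : ∀ φ : K → K → ℝ, St2 φ → ∀ x y, x ≠ 0 → y ≠ 0 → φ x y = 0)
    (g : K → K → K → ℝ) (hg : IsStein3 g) (a b c : K) (ha : a ≠ 0) (hb : b ≠ 0) (hc : c ≠ 0) :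
    g a b c = 0 :=
  h (fun x y => g x y c) ⟨fun _ _ _ hx hx' hy => hg.mul1 _ _ _ _ hx hx' hy hc,
    fun _ _ _ hx hy hy' => hg.mul2 _ _ _ _ hx hy hy' hc,
    fun _ hx hx' => hg.st12 _ _ hx hx' hc⟩ a b ha hb

/-- **the plus part**: all Steinberg functionals in three variables vanish on the fraction field
of `K[X]`. -/
theorem k3_plus {k K F : Type} [Field k] (hH : HarderSt k) [Field K] [Algebra k K]
    (hK : Dep2 k K) [Field F] [Algebra K[X] F] [IsFractionRing K[X] F]
    (f : F → F → F → ℝ) (hf : IsStein3 f) (x y z : F) (hx : x ≠ 0) (hy : y ≠ 0) (hz : z ≠ 0) :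
    f x y z = 0 := by
  apply stein3_fractionRing (K := K) hf _ _ x y z hx hy hz
  · intro g hg a b c ha hb hc
    exact stein3_of_st2 (fun φ hφ x y hx hy => hH K hK φ hφ x y hx hy) g hg a b c ha hb hc
  · intro π hπ φ hφ a b ha hb
    have hfin : FiniteDimensional K (AdjoinRoot π) :=
      (AdjoinRoot.powerBasis hπ.out.ne_zero).finite
    have halg : Algebra.IsAlgebraic K (AdjoinRoot π) := Algebra.IsAlgebraic.of_finite K _
    exact hH (AdjoinRoot π) (Dep2.of_isAlgebraic (K := K) hK) φ hφ a b ha hb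

/-- the constants: a Steinberg functional on `K[X]` is zero on the constants. -/
theorem const_zero {k K : Type} [Field k] (hH : HarderSt k) [Field K] [Algebra k K]
    (hK : Dep2 k K) (φ : K[X] → K[X] → ℝ) (hφ : StR φ)
    (hs : ∀ a : K, a ≠ 0 → 1 - a ≠ 0 → φ (C a) (C (1 - a)) = 0) (a b : K) (ha : a ≠ 0)
    (hb : b ≠ 0) : φ (C a) (C b) = 0 := by
  have h1 : St2 (fun a b : K => φ (C a) (C b)) := by
    refine ⟨fun x x' y hx hx' hy => ?_, fun x y y' hx hy hy' => ?_, fun x hx hx' => hs x hx hx'⟩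
    · show φ (C (x * x')) (C y) = _
      rw [C_mul]
      exact hφ.mul_left _ _ _ (C_ne_zero.2 hx) (C_ne_zero.2 hx') (C_ne_zero.2 hy)
    · show φ (C x) (C (y * y')) = _
      rw [C_mul]
      exact hφ.mul_right _ _ _ (C_ne_zero.2 hx) (C_ne_zero.2 hy) (C_ne_zero.2 hy')
  exact hH K hK _ h1 a b ha hb

end Pool.Agent.K3
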